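import Mathlib
import Pool.Agent.R473.TB.Fin

set_option autoImplicit false

/-!
# Terms of numbers with predicted digits
-/

namespace Pool.Agent.Run7.h103.PF

open Filter Topology Pool.Agent.TH932.Abs Pool.Agent.TH932.Germs Pool.Agent.TH932.Chi
open Pool.Agent.TH932.Words Pool.Agent.TH932.Scale Finset Pool.Agent.R473.TB

/-- the terms of a number with predicted digits (the computation is the one of
`Pool.Agent.R473.TB.rep_aut`) -/
theorem terms (X : AC) {N : ℕ → ℕ} (hLN : ∀ n, X.L n = (N n : ℝ)) (D : ℕ → ℤ)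
    (hD : ∀ k, |D k| ≤ (X.b : ℤ) - 1) (c0 : ℤ)
    (Ks : ℕ → ℕ) (hK : near X.L (fun n => (Ks n : ℝ)) 0)
    (out : ∀ n, Fin (Ks n) → ℤ) (step : ∀ n, Fin (Ks n) → ℤ → Fin (Ks n))
    (s0 : ∀ n, Fin (Ks n))
    (herr : ∀ i : ℕ, ∃ r : ℕ, ∀ᶠ n in (UU : Filter ℕ), ((Ico (N n) (2 ^ i * N n)).filter
      (fun k => out n (st (step n) (s0 n) D k) ≠ D k)).card ≤ r) (E : ℝ) :
    ∃ (r : ℕ) (c : Fin r → ℕ → ℚ) (m : Fin r → ℕ → ℕ),
      (∀ i, gm (c i) ∈ X.K) ∧ (∀ i, ∃ B : ℝ, ∀ᶠ n in (UU : Filter ℕ), (m i n : ℝ) ≤ B * X.L n) ∧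
      ∀ᶠ n in (UU : Filter ℕ), |c0 + V X.b D - ((((Zd X.b D (N n) : ℤ) : ℚ) / (X.b : ℚ) ^ N n +
        ∑ i, c i n / (X.b : ℚ) ^ m i n : ℚ) : ℝ)| ≤ Real.exp (-(E * X.L n)) := by
  classical
  have hb := X.hb
  have hb0 := X.b0
  have hlb := X.logb
  have hD' : ∀ k, |D k| ≤ (X.b : ℤ) := fun k => (hD k).trans (by linarith)
  obtain ⟨i, hi⟩ : ∃ i : ℕ, |E| + 2 ≤ 2 ^ i * Real.log X.b := by
    obtain ⟨i, hi⟩ := pow_unbounded_of_one_lt ((|E| + 2) / Real.log X.b) (one_lt_two (α := ℝ))
    refine ⟨i, ?_⟩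
    rw [div_lt_iff₀ hlb] at hi
    exact hi.le
  obtain ⟨r, hr⟩ := herr i
  set S : ℕ → Finset ℕ := fun n => (Ico (N n) (2 ^ i * N n)).filter
      (fun k => out n (st (step n) (s0 n) D k) ≠ D k) with hS
  have hlist : ∀ n, ∃ k : Fin r → Option ℕ, (∀ j s, k j = some s → s ∈ S n) ∧
      ((S n).card ≤ r → ∀ f : ℕ → ℝ, ∑ s ∈ S n, f s = ∑ j, (k j).elim 0 f) := by
    intro n
    by_cases h : (S n).card ≤ r
    · obtain ⟨k, h1, h2⟩ := listing r (S n) h
      exact ⟨k, h1, fun _ => h2⟩
    · exact ⟨fun _ => none, fun j s h => by simp at h, fun h' => absurd h' h⟩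
  choose kk hk1 hk2 using hlist
  choose mr dr hr1 hr2 hr3 hr4 using fun n k => rho_rat (out n) (step n) (s0 n) D hb hD' k
  choose mh dh hh1 hh2 hh3 hh4 using fun n => hk_rat (out n) (step n) (s0 n) D hb (N n)
  have hT : near X.L (fun n => ((2 * Ks n + 5 : ℕ) : ℝ)) 0 := by
    have h1 := (hK.const_mul X.tL 2).add (near_const X.tL 5)
    simp only [mul_zero, add_zero] at h1
    refine h1.congr (Eventually.of_forall fun n => ?_)
    push_cast
    ring
  refine ⟨r + 2, Fin.cons (fun _ => (c0 : ℚ)) (Fin.cons (fun n => (mh n : ℚ) / dh n)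
    (fun j n => (kk n j).elim 0 (fun k => (mr n k : ℚ) / dr n k))),
    Fin.cons (fun _ => 0) (Fin.cons N (fun j n => (kk n j).elim 0 id)), ?_, ?_, ?_⟩
  · intro j
    induction j using Fin.cases with
    | zero => rw [Fin.cons_zero]; exact const_mem_K X _
    | succ j =>
      rw [Fin.cons_succ]
      induction j using Fin.cases with
      | zero =>
        rw [Fin.cons_zero]
        exact mem_K X hT hh3 (fun n => by rw [abs_of_pos (hh1 n)]; exact hh2 n)
          (fun n => (hh1 n).ne')
      | succ j =>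
        rw [Fin.cons_succ]
        have e : (fun n => (kk n j).elim 0 (fun k => (mr n k : ℚ) / dr n k)) =
            fun n => (((kk n j).elim 0 (fun k => mr n k) : ℤ) : ℚ) /
              (((kk n j).elim 1 (fun k => dr n k) : ℤ) : ℚ) := by
          funext n
          cases kk n j <;> simp
        rw [e]
        have hbz : (1 : ℤ) ≤ X.b := by exact_mod_cast (by omega : 1 ≤ X.b)
        refine mem_K X hT (fun n => ?_) (fun n => ?_) (fun n => ?_)
        · cases kk n j with
          | none => simp only [Option.elim_none, abs_zero]; positivity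
          | some k => exact hr3 n k
        · cases kk n j with
          | none => simp only [Option.elim_none, abs_one]; exact one_le_pow₀ hbz
          | some k =>
            simp only [Option.elim_some]
            rw [abs_of_pos (hr1 n k)]; exact hr2 n k
        · cases kk n j with
          | none => simp
          | some k => exact (hr1 n k).ne'
  · intro j
    induction j using Fin.cases with
    | zero =>
      refine ⟨0, Eventually.of_forall fun n => ?_⟩
      rw [Fin.cons_zero]; simp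
    | succ j =>
      rw [Fin.cons_succ]
      induction j using Fin.cases with
      | zero =>
        refine ⟨1, Eventually.of_forall fun n => ?_⟩
        rw [Fin.cons_zero, one_mul, hLN]
      | succ j =>
        rw [Fin.cons_succ]
        refine ⟨2 ^ i, Eventually.of_forall fun n => ?_⟩
        rw [hLN]
        cases h : kk n j with
        | none => simp only [Option.elim_none, Nat.cast_zero]; positivity
        | some k =>
          simp only [Option.elim_some, id_eq]
          have h1 := hk1 n j k h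
          rw [hS, mem_filter, mem_Ico] at h1
          exact_mod_cast h1.1.2.le
  · filter_upwards [hr, ev_of_atTop (X.tL.eventually_ge_atTop 1)] with n h1 h2
    rw [hLN] at h2 ⊢
    have hN1 : 1 ≤ N n := by exact_mod_cast h2
    have h3 : N n ≤ 2 ^ i * N n := Nat.le_mul_of_pos_left _ (by positivity)
    have h4 := key (out n) (step n) (s0 n) D hb hD' (N n) h3
    have h5 := V_split hb hD' (2 ^ i * N n)
    have h6 := hk2 n h1 (fun k => rho (out n) (step n) (s0 n) D X.b k / (X.b : ℝ) ^ k)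
    have h7 := V_abs hb (e := fun k => D (2 ^ i * N n + k)) fun k => hD' _
    have h8 := hk_abs (out n) (step n) (s0 n) D hb (2 ^ i * N n)
    have e1 : ((((Zd X.b D (N n) : ℤ) : ℚ) / (X.b : ℚ) ^ N n + ∑ j : Fin (r + 2),
        (Fin.cons (fun _ => (c0 : ℚ)) (Fin.cons (fun n => (mh n : ℚ) / dh n)
          (fun j n => (kk n j).elim 0 (fun k => (mr n k : ℚ) / dr n k))) :
            Fin (r + 2) → ℕ → ℚ) j n / (X.b : ℚ) ^ ((Fin.cons (fun _ => 0) (Fin.cons N
            (fun j n => (kk n j).elim 0 id)) : Fin (r + 2) → ℕ → ℕ) j n) : ℚ) : ℝ) =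
        (Zd X.b D (N n) : ℝ) / (X.b : ℝ) ^ N n + (c0 + (hk (out n) (step n) (s0 n) D X.b (N n) /
          (X.b : ℝ) ^ N n + ∑ s ∈ S n, rho (out n) (step n) (s0 n) D X.b s / (X.b : ℝ) ^ s)) := by
      rw [Fin.sum_univ_succ, Fin.sum_univ_succ]
      simp only [Fin.cons_zero, Fin.cons_succ]
      push_cast
      rw [hh4, h6]
      congr 1
      congr 1
      · simp
      · congr 1
        refine sum_congr rfl fun j _ => ?_
        cases kk n j with
        | none => simp
        | some k =>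
          simp only [Option.elim_some, id_eq]
          rw [hr4]
          push_cast
          rfl
    rw [e1, h5, h4, Zd_eq hb]
    have e2 : (c0 : ℝ) + (∑ k ∈ range (N n), (D k : ℝ) / (X.b : ℝ) ^ (k + 1) +
        hk (out n) (step n) (s0 n) D X.b (N n) / (X.b : ℝ) ^ N n -
        hk (out n) (step n) (s0 n) D X.b (2 ^ i * N n) / (X.b : ℝ) ^ (2 ^ i * N n) +
        ∑ k ∈ (Ico (N n) (2 ^ i * N n)).filter (fun k => out n (st (step n) (s0 n) D k) ≠ D k),
        rho (out n) (step n) (s0 n) D X.b k / (X.b : ℝ) ^ k +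
        V X.b (fun k => D (2 ^ i * N n + k)) / (X.b : ℝ) ^ (2 ^ i * N n)) -
        (∑ j ∈ range (N n), (D j : ℝ) / (X.b : ℝ) ^ (j + 1) +
        (c0 + (hk (out n) (step n) (s0 n) D X.b (N n) / (X.b : ℝ) ^ N n +
        ∑ s ∈ S n, rho (out n) (step n) (s0 n) D X.b s / (X.b : ℝ) ^ s))) =
        (V X.b (fun k => D (2 ^ i * N n + k)) - hk (out n) (step n) (s0 n) D X.b (2 ^ i * N n)) /
          (X.b : ℝ) ^ (2 ^ i * N n) := by
      rw [hS]
      ring
    rw [e2, abs_div, abs_of_pos (by positivity : (0 : ℝ) < (X.b : ℝ) ^ (2 ^ i * N n))]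
    have h9 : |V X.b (fun k => D (2 ^ i * N n + k)) -
        hk (out n) (step n) (s0 n) D X.b (2 ^ i * N n)| ≤ 4 :=
      (abs_sub _ _).trans (by linarith)
    have h10 : (X.b : ℝ) ^ (2 ^ i * N n) = Real.exp (2 ^ i * Real.log X.b * N n) := by
      rw [← Real.rpow_natCast, Real.rpow_def_of_pos hb0]
      push_cast
      ring_nf
    rw [div_le_iff₀ (by positivity), h10, ← Real.exp_add]
    refine h9.trans ?_
    have h11 : (2 : ℝ) * N n ≤ -(E * N n) + 2 ^ i * Real.log X.b * N n := by
      have a1 : (|E| + 2) * (N n : ℝ) ≤ 2 ^ i * Real.log X.b * N n := by gcongr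
      have a2 : E * (N n : ℝ) ≤ |E| * N n := by
        have := le_abs_self E
        gcongr
      linarith
    have h12 : (4 : ℝ) ≤ Real.exp (2 * N n) := by
      have a1 := Real.add_one_le_exp (1 : ℝ)
      have a2 : Real.exp 2 = Real.exp 1 * Real.exp 1 := by rw [← Real.exp_add]; norm_num
      have a3 : Real.exp 2 ≤ Real.exp (2 * N n) := Real.exp_le_exp.2 (by linarith)
      have a4 : (4 : ℝ) ≤ Real.exp 1 * Real.exp 1 := by nlinarith
      linarith
    exact h12.trans (Real.exp_le_exp.2 h11)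

end Pool.Agent.Run7.h103.PF
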