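import Mathlib
import Pool.Agent.Run7.h103.PF.Terms
import Pool.Agent.TH796.AL.Alg5

set_option autoImplicit false
set_option linter.unusedSectionVars false

/-!
# Representations, in the machinery of `Pool.Agent.TH796.AL`, of numbers with predicted digits

`Pool.Agent.R473.TB` represents numbers whose digits are predicted by automata in the machinery of
`Pool.Agent.TH932.S2` (two coprime bases). Here the same is done for the machinery of
`Pool.Agent.TH796.AL`, which admits arbitrary bases and fields.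
-/

namespace Pool.Agent.Run7.h103.PF

open Filter Topology Pool.Agent.TH932.Abs Pool.Agent.TH932.Germs Pool.Agent.TH932.Chi
open Pool.Agent.TH932.Words Pool.Agent.TH932.Scale Finset
open Pool.Agent.TH796.AL Pool.Agent.TH796.AL.TwoB Pool.Agent.TH796.AL.Ai Pool.Agent.TH796.AL.Grp

section

variable {m : ℕ} (B : Base m) {b : ℕ} (hb : 2 ≤ b) {e : Fin m → ℕ} (hbe : b = ∏ i, B.P i ^ e i)
  {L : ℕ → ℝ} (hL : Tendsto L atTop atTop)

include hb hbe

/-- powers of the base -/
lemma pow_ch {c : ℕ → ℕ} {t : ℝ} (ht : near L (fun n => (c n : ℝ)) t) :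
    ∃ κ : KK L hL, gm (fun n => 1 / (b : ℚ) ^ (c n)) =
      (κ : GG) * ch B hL (fun i => -((e i : ℝ) * t)) := by
  obtain ⟨κ, -, h2⟩ := exists_const (B := B) hL (fun i => -((e i : ℝ) * t))
    (fun n i => -((e i * c n : ℕ) : ℤ)) (by
      intro i ε hε
      have h0 : (0 : ℝ) < (e i : ℝ) + 1 := by positivity
      filter_upwards [ht (ε / (e i + 1)) (by positivity), L_nonneg hL] with n h2 h3
      have e1 : (((-((e i * c n : ℕ) : ℤ)) : ℤ) : ℝ) - -((e i : ℝ) * t) * L n =
          -((e i : ℝ) * ((c n : ℝ) - t * L n)) := by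
        push_cast
        ring
      rw [e1, abs_neg, abs_mul, abs_of_nonneg (Nat.cast_nonneg (e i) : (0 : ℝ) ≤ (e i : ℝ))]
      calc (e i : ℝ) * |(c n : ℝ) - t * L n| ≤ (e i + 1) * (ε / (e i + 1) * L n) := by
            gcongr
            linarith
        _ = ε * L n := by field_simp)
  refine ⟨κ, ?_⟩
  rw [← h2]
  congr 1
  funext n
  have e1 : (b : ℚ) ^ c n = ∏ j, (B.P j : ℚ) ^ (e j * c n) := by
    rw [Pool.Agent.TH914.AL.base_cast B hbe, ← Finset.prod_pow]
    exact Finset.prod_congr rfl fun j _ => by rw [pow_mul]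
  rw [e1, one_div, ← Finset.prod_inv_distrib]
  exact Finset.prod_congr rfl fun j _ => by rw [zpow_neg, zpow_natCast]

/-- a block and few terms -/
theorem repV_add_terms {V : Submodule ℝ (Fin m → ℝ)} (hV : (fun i => (e i : ℝ)) ∈ V) {x : ℝ}
    (z : ℕ → ℤ) (h : ℕ → ℕ) {H : ℝ}
    (hH : 0 ≤ H) (hz : ∀ n, |z n| ≤ (b : ℤ) ^ h n) (hh : ∀ n, (h n : ℝ) ≤ H * L n)
    (hE : ∀ E : ℝ, ∃ (r : ℕ) (c : Fin r → ℕ → ℚ) (μ : Fin r → ℕ → ℕ),
      (∀ i, gm (c i) ∈ KK L hL) ∧
      (∀ i, ∃ B' : ℝ, ∀ᶠ n in (UU : Filter ℕ), (μ i n : ℝ) ≤ B' * L n) ∧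
      ∀ᶠ n in (UU : Filter ℕ), |x - (((z n : ℚ) / (b : ℚ) ^ h n +
        ∑ i, c i n / (b : ℚ) ^ μ i n : ℚ) : ℝ)| ≤ Real.exp (-(E * L n))) :
    RepV B hL V x := by
  classical
  have hlb : 0 < Real.log b := Real.log_pos (by exact_mod_cast (by omega : 1 < b))
  set D : ℝ := H * Real.log b with hD
  have hD0 : 0 ≤ D := by positivity
  have hhD : ∀ n, (h n : ℝ) * Real.log b ≤ D * L n := by
    intro n
    have h1 := hh n
    calc (h n : ℝ) * Real.log b ≤ H * L n * Real.log b := by gcongr
      _ = D * L n := by rw [hD]; ring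
  have hone : (1 : GG) = gm (fun n => (((fun _ => 1 : ℕ → ℤ) n : ℤ) : ℚ) /
      (b : ℚ) ^ ((fun _ => 0 : ℕ → ℕ) n)) := by
    rw [← gm_one]
    congr 1
    funext n
    simp
  have hL0 : ∀ n, 0 ≤ D * L n := fun n => by
    have h1 := hhD n
    have h2 : 0 ≤ (h n : ℝ) * Real.log b := by positivity
    linarith
  have h0 : ∀ n : ℕ, (((fun _ => 0 : ℕ → ℕ) n : ℕ) : ℝ) * Real.log b ≤ D * L n := by
    intro n
    simpa using hL0 n
  refine ⟨Option Unit, inferInstance, fun j => match j with
    | none => 1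
    | some _ => gm (fun n => (z n : ℚ) / (b : ℚ) ^ h n), D, ?_, ?_, fun E => ?_⟩
  · intro v j
    match j with
    | none =>
      change (1 : GG) ∈ _
      rw [hone]
      exact Pool.Agent.TH914.AL.block_mem B hbe hb hL hD0 h0 (fun n => by simp) v
    | some () => exact Pool.Agent.TH914.AL.block_mem B hbe hb hL hD0 hhD hz v
  · intro j
    match j with
    | none =>
      change Sint B L (1 : GG)
      rw [hone]
      exact Pool.Agent.TH914.AL.block_sint B hbe hb hL hD0 h0
    | some () => exact Pool.Agent.TH914.AL.block_sint B hbe hb hL hD0 (N := z) hhD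
  · obtain ⟨r, c, μ, hc, hμ, hE'⟩ := hE E
    have k3 : ∀ i : Fin r, ∃ (κ : KK L hL) (g : Fin m → ℝ), g ∈ V ∧
        gm (fun n => c i n / (b : ℚ) ^ μ i n) = (κ : GG) * ch B hL g := by
      intro i
      obtain ⟨B', hB'⟩ := hμ i
      obtain ⟨t, ht0, _, ht⟩ := exists_st (L := L) hL (a := fun n => (μ i n : ℝ)) (A := B') (by
        filter_upwards [hB'] with n hn using ⟨by positivity, hn⟩)
      obtain ⟨κ, hκ⟩ := pow_ch B hb hbe hL ht
      refine ⟨⟨gm (c i), hc i⟩ * κ, fun i => -((e i : ℝ) * t), ?_, ?_⟩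
      · have h5 := V.smul_mem (-t) hV
        convert h5 using 1
        funext j
        simp
        ring
      · have e1 : gm (fun n => c i n / (b : ℚ) ^ μ i n) =
            gm (c i) * gm (fun n => 1 / (b : ℚ) ^ μ i n) := by
          rw [gm_mul]; congr 1; funext n; ring
        rw [e1, hκ]
        push_cast
        ring
    choose κ g hg hκ using k3
    refine ⟨fun j => match j with
      | none => ∑ i, AddMonoidAlgebra.single (g i) (κ i)
      | some _ => 1, fun n => (z n : ℚ) / (b : ℚ) ^ h n + ∑ i, c i n / (b : ℚ) ^ μ i n, ?_, ?_, hE'⟩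
    · intro j g' hg'
      match j with
      | none =>
        change (∑ i, (AddMonoidAlgebra.single (g i) (κ i) : Rg m hL)).coeff g' ≠ 0 at hg'
        by_contra hcon
        apply hg'
        have h3 : ∀ s : Finset (Fin r),
            (∑ i ∈ s, (AddMonoidAlgebra.single (g i) (κ i) : Rg m hL)).coeff g' = 0 := by
          intro s
          induction s using Finset.induction_on with
          | empty => simp
          | insert a s ha ih =>
            rw [Finset.sum_insert ha, AddMonoidAlgebra.coeff_add, Finsupp.add_apply, ih, add_zero,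
              AddMonoidAlgebra.coeff_single, Finsupp.single_eq_of_ne]
            intro h4
            apply hcon
            rw [h4]
            exact hg a
        exact h3 _
      | some () =>
        change ((1 : Rg m hL)).coeff g' ≠ 0 at hg'
        rw [AddMonoidAlgebra.one_def, AddMonoidAlgebra.coeff_single] at hg'
        have : g' = 0 := by
          by_contra hne
          exact hg' (Finsupp.single_eq_of_ne hne)
        rw [this]
        exact V.zero_mem
    · rw [Fintype.sum_option]
      simp only [Finset.univ_unique, Finset.sum_singleton, map_one, one_mul, mul_one, map_sum]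
      have hsum : ∀ (T : Finset (Fin r)), ∑ i ∈ T, ev B hL (AddMonoidAlgebra.single (g i) (κ i)) =
          gm (fun n => ∑ i ∈ T, c i n / (b : ℚ) ^ μ i n) := by
        intro T
        induction T using Finset.induction_on with
        | empty => simp [← gm_zero]
        | insert a T ha ih =>
          rw [Finset.sum_insert ha, ih, Pool.Agent.TH914.AL.ev_single1, ← hκ, gm_add]
          congr 1
          funext n
          rw [Finset.sum_insert ha]
      rw [hsum, gm_add]
      congr 1
      funext n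
      ring

/-- numbers whose digits are predicted up to few errors -/
theorem repV_aut {V : Submodule ℝ (Fin m → ℝ)} (hV : (fun i => (e i : ℝ)) ∈ V)
    {N : ℕ → ℕ} (hLN : Tendsto (fun n => (N n : ℝ)) atTop atTop) (D : ℕ → ℤ)
    (hD : ∀ k, |D k| ≤ (b : ℤ) - 1) (c0 : ℤ)
    (Ks : ℕ → ℕ) (hK : near (fun n => (N n : ℝ)) (fun n => (Ks n : ℝ)) 0)
    (out : ∀ n, Fin (Ks n) → ℤ) (step : ∀ n, Fin (Ks n) → ℤ → Fin (Ks n))
    (s0 : ∀ n, Fin (Ks n))
    (herr : ∀ i : ℕ, ∃ r : ℕ, ∀ᶠ n in (UU : Filter ℕ), ((Ico (N n) (2 ^ i * N n)).filter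
      (fun k => out n (Pool.Agent.R473.TB.st (step n) (s0 n) D k) ≠ D k)).card ≤ r) :
    RepV B hLN V (c0 + Pool.Agent.R473.TB.V b D) := by
  have h := terms (X := ⟨b, b + 1, hb, by omega, ⟨1, -1, by push_cast; ring⟩, b, fun t => (-t, 0),
    Or.inl ⟨rfl, rfl⟩, fun n => (N n : ℝ), hLN⟩) (N := N) (fun n => rfl) D hD c0 Ks hK out step s0
    herr
  refine repV_add_terms B hb hbe hLN hV (fun n => Pool.Agent.R473.TB.Zd b D (N n)) N (H := 1)
    zero_le_one (fun n => (Pool.Agent.R473.TB.Zd_abs hb hD (N n)).trans (by linarith))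
    (fun n => by rw [one_mul]) h

end

end Pool.Agent.Run7.h103.PF
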