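import Mathlib
import Pool.Agent.Run7.h103.PF.Rep

set_option autoImplicit false
set_option linter.unusedSectionVars false

/-!
# Numbers with predicted digits are represented
-/

namespace Pool.Agent.Run7.h103.PF

open Filter Topology Pool.Agent.TH932.Abs Pool.Agent.TH932.Germs Pool.Agent.TH932.Chi
open Pool.Agent.TH932.Words Pool.Agent.TH932.Scale Finset
open Pool.Agent.TH796.AL Pool.Agent.TH796.AL.TwoB Pool.Agent.TH796.AL.Ai Pool.Agent.TH796.AL.Grp
open Pool.Agent.TH796.AL.Final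

section

variable {m : ℕ} (B : Base m) {b : ℕ} (hb : 2 ≤ b) {e : Fin m → ℕ} (hbe : b = ∏ i, B.P i ^ e i)

lemma dz_eq (b : ℕ) (x : ℝ) : dz b x = Pool.Agent.TH932.S2.dw b x := by
  funext n
  unfold dz Pool.Agent.TH932.S2.dw
  rw [mul_comm]

include hb hbe

/-- words of linear complexity -/
lemma repV_word {V : Submodule ℝ (Fin m → ℝ)} (hV : (fun i => (e i : ℝ)) ∈ V)
    {N : ℕ → ℕ} (hN2 : ∀ n, 2 ≤ N n)
    (hL : Tendsto (fun n => (N n : ℝ)) atTop atTop) {u : ℕ → ℤ} (hu : ∀ k, 0 ≤ u k ∧ u k < b)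
    {C : ℝ} (hC : ∀ n : ℕ, 1 ≤ n → (Pool.Agent.R473.TB.blocks u n : ℝ) ≤ C * n) :
    RepV B hL V (Pool.Agent.R473.TB.V b u) := by
  by_cases hirr : Irrational (Pool.Agent.R473.TB.V b u)
  · refine repV_digits B hb e hbe V hV _ N hN2 C (fun n => ?_) hL
    have h1 := hC (N n) (by have := hN2 n; omega)
    refine le_trans ?_ h1
    rw [dz_eq]
    exact_mod_cast Pool.Agent.R473.TB.cx_le hb hu hirr (N n)
  · obtain ⟨c, hc⟩ := not_not.1 hirr
    rw [← hc]
    exact repV_const B hL V c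

/-- numbers whose digits, up to a word of linear complexity, are predicted up to few errors -/
theorem repV_pred {V : Submodule ℝ (Fin m → ℝ)} (hV : (fun i => (e i : ℝ)) ∈ V)
    {N : ℕ → ℕ} (hN2 : ∀ n, 2 ≤ N n)
    (hL : Tendsto (fun n => (N n : ℝ)) atTop atTop) {u : ℕ → ℤ} (hu : ∀ k, 0 ≤ u k ∧ u k < b)
    {C : ℝ} (hC : ∀ n : ℕ, 1 ≤ n → (Pool.Agent.R473.TB.blocks u n : ℝ) ≤ C * n) (x : ℝ)
    (Ks : ℕ → ℕ) (hK : ∀ n : ℕ, (n : ℝ) * Ks n ≤ N n)
    (out : ∀ n, Fin (Ks n) → ℤ) (step : ∀ n, Fin (Ks n) → ℤ → Fin (Ks n))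
    (s0 : ∀ n, Fin (Ks n)) (c : ℕ)
    (herr : ∀ n, ∀ i ≤ n, Pool.Agent.R473.TB.errs (out n) (step n) (s0 n)
        (fun k => Pool.Agent.R473.TB.digit b x k - u k) (2 ^ i * N n) ≤
      Pool.Agent.R473.TB.errs (out n) (step n) (s0 n)
        (fun k => Pool.Agent.R473.TB.digit b x k - u k) (N n) + c * i) :
    RepV B hL V x := by
  have hy := repV_word B hb hbe hV hN2 hL hu hC
  have hz := repV_aut B hb hbe hV hL (fun k => Pool.Agent.R473.TB.digit b x k - u k) (fun k => by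
      have h1 := Pool.Agent.R473.TB.digit_mem hb x k
      have h2 := hu k
      show |Pool.Agent.R473.TB.digit b x k - u k| ≤ (b : ℤ) - 1
      rw [abs_le]
      constructor <;> linarith [h1.1, h1.2, h2.1, h2.2]) ⌊x⌋ Ks (by
      intro ε hε
      obtain ⟨n0, hn0⟩ := exists_nat_gt (1 / ε)
      refine ev_of_atTop ?_
      filter_upwards [eventually_ge_atTop n0, eventually_ge_atTop 1] with n h1 h2
      show |((Ks n : ℕ) : ℝ) - 0 * (N n : ℝ)| ≤ ε * (N n : ℝ)
      rw [zero_mul, sub_zero, abs_of_nonneg (by positivity)]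
      have h3 := hK n
      have h4 : (n0 : ℝ) ≤ n := by exact_mod_cast h1
      have h5 : 1 < ε * n := by
        rw [div_lt_iff₀ hε] at hn0
        nlinarith
      have h6 : (0 : ℝ) ≤ Ks n := by positivity
      calc (Ks n : ℝ) ≤ (ε * n) * Ks n := by nlinarith
        _ = ε * (n * Ks n) := by ring
        _ ≤ ε * N n := by gcongr) out step s0 (by
      intro i
      refine ⟨c * i, ev_of_atTop ?_⟩
      filter_upwards [eventually_ge_atTop i] with n hn
      have h1 := herr n i hn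
      have h2 : N n ≤ 2 ^ i * N n := Nat.le_mul_of_pos_left _ (by positivity)
      rw [Pool.Agent.R473.TB.errs_Ico _ _ _ _ h2] at h1
      omega)
  have e1 : Pool.Agent.R473.TB.V b u +
      ((⌊x⌋ : ℤ) + Pool.Agent.R473.TB.V b fun k => Pool.Agent.R473.TB.digit b x k - u k) = x := by
    rw [Pool.Agent.R473.TB.V_sub hb]
    · have := Pool.Agent.R473.TB.digit_sum hb x
      linarith
    · intro k
      rw [abs_of_nonneg (Pool.Agent.R473.TB.digit_mem hb x k).1]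
      exact (Pool.Agent.R473.TB.digit_mem hb x k).2.le
    · intro k
      rw [abs_of_nonneg (hu k).1]; exact (hu k).2.le
  have h3 := repV_add hy hz
  rwa [e1] at h3

end

/-- the scales: few new errors in the dyadic windows after `N`, many windows, and `N` is large
compared with the number of states -/
lemma scales (A : ℝ) : ∃ c : ℕ, ∀ n : ℕ, ∃ R : ℕ, ∀ M K : ℕ, R * (K + 1) ≤ M →
    ∀ F : ℕ → ℕ, (F M : ℝ) ≤ A * Real.log (M / (K + 1)) → Monotone F →
    ∃ N : ℕ, n ≤ N ∧ 2 ≤ N ∧ 2 ^ n * N ≤ M ∧ (n : ℝ) * K ≤ N ∧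
      ∀ i ≤ n, F (2 ^ i * N) ≤ F N + c * i := by
  set c : ℕ := ⌈2 * |A|⌉₊ + 1 with hc
  have hcA : 2 * |A| ≤ c := by
    rw [hc]; push_cast
    have := Nat.le_ceil (2 * |A|)
    linarith
  have hc0 : (0 : ℝ) < c := by rw [hc]; positivity
  refine ⟨c, fun n => ⟨2 ^ (4 * n + 8), fun M K hM F hF hmono => ?_⟩⟩
  set Q : ℕ := (n + 2) * (K + 1) with hQ
  have hQ1 : 1 ≤ Q := by rw [hQ]; exact Nat.one_le_iff_ne_zero.2 (by positivity)
  have hnn : n + 2 ≤ 2 ^ (n + 1) := by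
    have := Nat.lt_two_pow_self (n := n + 1)
    omega
  have hMpos : 0 < M := lt_of_lt_of_le (by positivity) hM
  set S0 := Nat.log 2 Q + 1 with hS0
  set S := Nat.log 2 M with hS
  have hS1 : 2 ^ S ≤ M := Nat.pow_log_le_self 2 hMpos.ne'
  have hS2 : M < 2 ^ (S + 1) := Nat.lt_pow_succ_log_self one_lt_two M
  have hQ2 : Q < 2 ^ S0 := Nat.lt_pow_succ_log_self one_lt_two Q
  have hQ3 : 2 ^ (S0 - 1) ≤ Q := by
    rw [hS0, Nat.add_sub_cancel]
    exact Nat.pow_log_le_self 2 (by omega)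
  -- `M / (K + 1)` is at most `2 ^ (S + 1 - (S0 - 1) + n + 1)`
  have hMK : M ≤ (K + 1) * 2 ^ (S + 1 - (S0 - 1) + (n + 1)) := by
    by_cases hSS : S0 - 1 ≤ S + 1
    · have h1 : 2 ^ (S + 1) = 2 ^ (S0 - 1) * 2 ^ (S + 1 - (S0 - 1)) := by
        rw [← pow_add]; congr 1; omega
      calc M ≤ 2 ^ (S0 - 1) * 2 ^ (S + 1 - (S0 - 1)) := by rw [← h1]; exact hS2.le
        _ ≤ ((n + 2) * (K + 1)) * 2 ^ (S + 1 - (S0 - 1)) := Nat.mul_le_mul_right _ hQ3
        _ ≤ (2 ^ (n + 1) * (K + 1)) * 2 ^ (S + 1 - (S0 - 1)) := by gcongr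
        _ = _ := by rw [pow_add]; ring
    · exfalso
      have h1 : 2 ^ (S + 1) < 2 ^ (S0 - 1) := Nat.pow_lt_pow_right (by norm_num) (by omega)
      have h2 : M < Q := lt_of_lt_of_le (hS2.trans h1) hQ3
      have h3 : Q ≤ 2 ^ (4 * n + 8) * (K + 1) := by
        rw [hQ]
        refine Nat.mul_le_mul_right _ (hnn.trans (Nat.pow_le_pow_right (by norm_num) (by omega)))
      omega
  have hlow : 2 ^ (4 * n + 8) ≤ 2 ^ (S + 1 - (S0 - 1) + (n + 1)) := by
    have h1 : 2 ^ (4 * n + 8) * (K + 1) ≤ 2 ^ (S + 1 - (S0 - 1) + (n + 1)) * (K + 1) := by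
      rw [mul_comm (2 ^ (S + 1 - (S0 - 1) + (n + 1)))]
      exact hM.trans hMK
    exact Nat.le_of_mul_le_mul_right h1 (by omega)
  have hlow2 : 4 * n + 8 ≤ S + 1 - (S0 - 1) + (n + 1) := (Nat.pow_le_pow_iff_right (by norm_num)).1 hlow
  have hS01 : 1 ≤ S0 := by omega
  have hgap : S0 + (3 * n + 5) ≤ S := by omega
  -- the number of errors
  have hlog : Real.log (M / (K + 1)) ≤ (S - S0 : ℝ) + n + 3 := by
    have h1 : (M : ℝ) / (K + 1) ≤ (2 : ℝ) ^ (S + 1 - (S0 - 1) + (n + 1)) := by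
      rw [div_le_iff₀ (by positivity), mul_comm]
      exact_mod_cast hMK
    have h2 := Real.log_le_log (by positivity) h1
    rw [Real.log_pow] at h2
    have h3 : ((S + 1 - (S0 - 1) + (n + 1) : ℕ) : ℝ) = (S - S0 : ℝ) + n + 3 := by
      have h4 : S + 1 - (S0 - 1) + (n + 1) + S0 = S + n + 3 := by omega
      have h5 : ((S + 1 - (S0 - 1) + (n + 1) : ℕ) : ℝ) + S0 = S + n + 3 := by exact_mod_cast h4
      linarith
    rw [h3] at h2
    have h6 : Real.log 2 ≤ 1 := by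
      have := Real.log_two_lt_d9
      linarith
    have h7 : (0 : ℝ) ≤ (S - S0 : ℝ) + n + 3 := by
      have : (S0 : ℝ) ≤ S := by exact_mod_cast (by omega : S0 ≤ S)
      have : (0 : ℝ) ≤ n := Nat.cast_nonneg n
      linarith
    nlinarith
  have hMK1 : (1 : ℝ) ≤ (M : ℝ) / (K + 1) := by
    rw [le_div_iff₀ (by positivity), one_mul]
    have h1 : K + 1 ≤ M := le_trans (Nat.le_mul_of_pos_left _ (by positivity)) hM
    exact_mod_cast h1
  have hlog0 : 0 ≤ Real.log (M / (K + 1)) := Real.log_nonneg hMK1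
  have hFM : (F M : ℝ) ≤ |A| * ((S - S0 : ℝ) + n + 3) := by
    refine hF.trans ?_
    calc A * Real.log (M / (K + 1)) ≤ |A| * Real.log (M / (K + 1)) := by
          gcongr; exact le_abs_self A
      _ ≤ _ := by gcongr
  obtain ⟨s, hs1, hs2⟩ := exists_max_image (Icc S0 S) (fun s => (F (2 ^ s) : ℤ) - c * s)
    ⟨S0, by simp; omega⟩
  rw [mem_Icc] at hs1
  have hsn : s + n ≤ S := by
    have a1 := hs2 S0 (by simp; omega)
    have a2 : (F (2 ^ s) : ℝ) ≤ |A| * ((S - S0 : ℝ) + n + 3) := by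
      refine le_trans ?_ hFM
      have : F (2 ^ s) ≤ F M := hmono ((Nat.pow_le_pow_right (by norm_num) hs1.2).trans hS1)
      exact_mod_cast this
    have a3 : (F (2 ^ S0) : ℝ) - c * S0 ≤ F (2 ^ s) - c * s := by exact_mod_cast a1
    have a4 : (0 : ℝ) ≤ F (2 ^ S0) := by positivity
    have a5 : (0 : ℝ) ≤ (S - S0 : ℝ) + n + 3 := by
      have : (S0 : ℝ) ≤ S := by exact_mod_cast (by omega : S0 ≤ S)
      have : (0 : ℝ) ≤ n := Nat.cast_nonneg n
      linarith
    have a6 : |A| * ((S - S0 : ℝ) + n + 3) ≤ c / 2 * ((S - S0 : ℝ) + n + 3) := by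
      have : |A| ≤ c / 2 := by linarith
      gcongr
    have a7 : (c : ℝ) * (s - S0) ≤ c * (((S - S0 : ℝ) + n + 3) / 2) := by
      have : (c : ℝ) * (s - S0) = c * s - c * S0 := by ring
      have : (c : ℝ) * (((S - S0 : ℝ) + n + 3) / 2) = c / 2 * ((S - S0 : ℝ) + n + 3) := by ring
      linarith
    have a8 : (s : ℝ) - S0 ≤ ((S - S0 : ℝ) + n + 3) / 2 := le_of_mul_le_mul_left a7 hc0
    have a9 : (S0 : ℝ) + (3 * n + 5) ≤ S := by exact_mod_cast hgap
    have a10 : (s : ℝ) + n ≤ S := by linarith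
    exact_mod_cast a10
  have hQs : Q < 2 ^ s := lt_of_lt_of_le hQ2 (Nat.pow_le_pow_right (by norm_num) hs1.1)
  have hnQ : n + 2 ≤ Q := by
    rw [hQ]; exact Nat.le_mul_of_pos_right _ (by omega)
  refine ⟨2 ^ s, by omega, by omega, ?_, ?_, ?_⟩
  · rw [← pow_add]
    exact (Nat.pow_le_pow_right (by norm_num) (by omega)).trans hS1
  · have h1 : n * K ≤ 2 ^ s := by
      have : n * K ≤ Q := by rw [hQ]; exact Nat.mul_le_mul (by omega) (by omega)
      omega
    exact_mod_cast h1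
  · intro i hi
    have a1 := hs2 (s + i) (by rw [mem_Icc]; omega)
    rw [← pow_add, add_comm i s]
    push_cast at a1
    have a2 : (F (2 ^ (s + i)) : ℤ) ≤ F (2 ^ s) + c * i := by
      have : (c : ℤ) * (s + i) = c * s + c * i := by ring
      linarith
    exact_mod_cast a2

end Pool.Agent.Run7.h103.PF
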