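import Mathlib
import Pool.Agent.Run7.h103.PF.Pred

set_option autoImplicit false
set_option linter.unusedSectionVars false

/-!
# Simultaneous representation of numbers with predicted digits
-/

namespace Pool.Agent.Run7.h103.PF

open Filter Topology Pool.Agent.TH932.Abs Pool.Agent.TH932.Germs Pool.Agent.TH932.Chi
open Pool.Agent.TH932.Words Pool.Agent.TH932.Scale Finset
open Pool.Agent.TH796.AL Pool.Agent.TH796.AL.TwoB Pool.Agent.TH796.AL.Ai Pool.Agent.TH796.AL.Grp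
open Pool.Agent.TH796.AL.Final Pool.Agent.TH796.AL.Alg

/-- a word over the alphabet `{0, ..., b - 1}` with at most `C n` blocks of length `n` -/
structure Simple (b : ℕ) (C : ℝ) (w : ℕ → ℤ) : Prop where
  alphabet : ∀ k, 0 ≤ w k ∧ w k < b
  complexity : ∀ n : ℕ, 1 ≤ n → (Pool.Agent.R473.TB.blocks w n : ℝ) ≤ C * n

/-- the digits of `x` in base `b`, up to the word `u`, are predicted by an automaton with at most
`K` states with at most `E` errors among the first `M` -/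
def Good (b : ℕ) (u : ℕ → ℤ) (x : ℝ) (M K : ℕ) (E : ℝ) : Prop :=
  ∃ (k : ℕ) (_ : k ≤ K) (o : Fin k → ℤ) (g : Fin k → ℤ → Fin k) (s : Fin k),
    (Pool.Agent.R473.TB.errs o g s (fun j => Pool.Agent.R473.TB.digit b x j - u j) M : ℝ) ≤ E

lemma exists_base' {ι : Type} [Fintype ι] (b : ι → ℕ) (hb : ∀ i, 2 ≤ b i) :
    ∃ (m : ℕ) (B : Base m), ∀ i, ∃ e : Fin m → ℕ, b i = ∏ j, B.P j ^ e j := by
  obtain ⟨m, B, h⟩ := Fld.exists_base (k := Fintype.card ι)
    (fun i => b ((Fintype.equivFin ι).symm i)) (fun i => hb _)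
  refine ⟨m, B, fun i => ?_⟩
  have h1 := h (Fintype.equivFin ι i)
  simpa using h1

lemma mem_VS {m : ℕ} (B : Base m) {b : ℕ} (hb : 2 ≤ b) {e : Fin m → ℕ}
    (hbe : b = ∏ i, B.P i ^ e i) : (fun i => (e i : ℝ)) ∈ VS B (GA {b}) := by
  obtain ⟨u, hu, hub⟩ := mem_GA hb (Set.mem_singleton b)
  refine Submodule.subset_span ⟨fun i => (e i : ℤ), by simp, u, hu, ?_⟩
  rw [hub, Pool.Agent.TH914.AL.base_cast B hbe]
  exact Finset.prod_congr rfl fun j _ => by rw [zpow_natCast]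

/-- **Simultaneous representation.** -/
theorem key {ι : Type} [Fintype ι] (b : ι → ℕ) (hb : ∀ i, 2 ≤ b i) (u : ι → ℕ → ℤ) {C : ℝ}
    (hu : ∀ i, Simple (b i) C (u i)) (x : ι → ℝ) (A : ℝ)
    (h : ∀ R : ℕ, ∃ M K : ℕ, R * (K + 1) ≤ M ∧
      ∀ i, Good (b i) (u i) (x i) M K (A * Real.log (M / (K + 1)))) :
    ∃ (m : ℕ) (B : Base m) (L : ℕ → ℝ) (hL : Tendsto L atTop atTop),
      ∀ i, RepV B hL (VS B (GA {b i})) (x i) := by
  classical
  obtain ⟨c, hc⟩ := scales ((Fintype.card ι : ℝ) * A)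
  choose R hR using hc
  choose M K hMK hG using fun n => h (R n)
  choose Ks hKs o g s hE using hG
  set Fi : ℕ → ι → ℕ → ℕ := fun n i t => Pool.Agent.R473.TB.errs (o n i) (g n i) (s n i)
    (fun j => Pool.Agent.R473.TB.digit (b i) (x i) j - u i j) t with hFi
  have hFm : ∀ n i, Monotone (Fi n i) := fun n i => Pool.Agent.R473.TB.errs_mono _ _ _ _
  choose N hN1 hN2 hN3 hN4 hN5 using fun n => hR n (M n) (K n) (hMK n)
    (fun t => ∑ i, Fi n i t) (by
      push_cast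
      have h1 : ∑ i, (Fi n i (M n) : ℝ) ≤ ∑ _i : ι, A * Real.log ((M n : ℝ) / (K n + 1)) :=
        Finset.sum_le_sum fun i _ => hE n i
      rw [Finset.sum_const, Finset.card_univ, nsmul_eq_mul] at h1
      linarith) (fun s t hst => Finset.sum_le_sum fun i _ => hFm n i hst)
  have hN : Tendsto N atTop atTop := tendsto_atTop_mono hN1 tendsto_id
  have hLL : Tendsto (fun n => (N n : ℝ)) atTop atTop := tendsto_natCast_atTop_atTop.comp hN
  obtain ⟨m, B, hB⟩ := exists_base' b hb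
  choose e he using hB
  refine ⟨m, B, fun n => (N n : ℝ), hLL, fun i => ?_⟩
  refine repV_pred B (hb i) (he i) (mem_VS B (hb i) (he i)) hN2 hLL (hu i).alphabet
    (hu i).complexity (x i) (fun n => Ks n i) (fun n => ?_) (fun n => o n i) (fun n => g n i)
    (fun n => s n i) c (fun n j hj => ?_)
  · refine le_trans ?_ (hN4 n)
    have h1 : (Ks n i : ℝ) ≤ K n := by exact_mod_cast hKs n i
    gcongr
  · have h1 : ∑ i, Fi n i (2 ^ j * N n) ≤ ∑ i, Fi n i (N n) + c * j := hN5 n j hj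
    rw [← Finset.add_sum_erase _ _ (Finset.mem_univ i),
      ← Finset.add_sum_erase (f := fun i => Fi n i (N n)) _ (Finset.mem_univ i)] at h1
    have h2 : ∑ k ∈ Finset.univ.erase i, Fi n k (N n) ≤
        ∑ k ∈ Finset.univ.erase i, Fi n k (2 ^ j * N n) :=
      Finset.sum_le_sum fun k _ => hFm n k (Nat.le_mul_of_pos_left _ (by positivity))
    have h3 : Fi n i (2 ^ j * N n) ≤ Fi n i (N n) + c * j := by omega
    exact h3

/-! ### conclusions -/

/-- **Algebraic numbers.** -/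
theorem no_algebraic {ι : Type} [Fintype ι] (b : ι → ℕ) (hb : ∀ i, 2 ≤ b i) (u : ι → ℕ → ℤ) {C : ℝ}
    (hu : ∀ i, Simple (b i) C (u i)) (x : ι → ℝ) (A : ℝ) {y : ℝ}
    (hy : y ∈ Subfield.closure (Set.range x)) (halg : IsAlgebraic ℚ y) (hirr : Irrational y) :
    ∃ R : ℕ, ∀ M K : ℕ, R * (K + 1) ≤ M →
      ∃ i, ¬ Good (b i) (u i) (x i) M K (A * Real.log (M / (K + 1))) := by
  by_contra hcon
  push Not at hcon
  obtain ⟨m, B, L, hL, h⟩ := key b hb u hu x A hcon
  have h1 : y ∈ FV B hL (⊤ : Submodule ℝ (Fin m → ℝ)) := by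
    refine (Subfield.closure_le.2 ?_) hy
    rintro _ ⟨i, rfl⟩
    exact Subfield.subset_closure (RepV.mono le_top (h i))
  exact transc h1 hirr halg

/-- the numbers of a set of tasks are in the field of a group of bases -/
lemma closure_le_FV {ι : Type} {b : ι → ℕ} {x : ι → ℝ} {m : ℕ}
    {B : Base m} {L : ℕ → ℝ} {hL : Tendsto L atTop atTop}
    (h : ∀ i, RepV B hL (VS B (GA {b i})) (x i)) (I : Set ι) :
    Subfield.closure (x '' I) ≤ FV B hL (VS B (GA (b '' I))) := by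
  refine Subfield.closure_le.2 ?_
  rintro _ ⟨i, hi, rfl⟩
  refine Subfield.subset_closure (RepV.mono (VS_mono B ?_) (h i))
  refine Subgroup.closure_mono ?_
  rintro v ⟨d, hd, hv⟩
  exact ⟨d, by rw [Set.mem_singleton_iff.1 hd]; exact ⟨i, hi, rfl⟩, hv⟩

/-- a number algebraic over two fields of represented numbers -/
lemma unumber_of_two {m : ℕ} {B : Base m} {L : ℕ → ℝ} {hL : Tendsto L atTop atTop}
    {V W : Submodule ℝ (Fin m → ℝ)} (hVW : Disjoint V W) {z : ℝ} (hz : Transcendental ℚ z)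
    (h1 : IsAlgebraic (FV B hL V) z) (h2 : IsAlgebraic (FV B hL W) z) : UNumber z :=
  unumber_of_alg hz (alg_bot hVW (alg_kst h1) (alg_kst h2))

/-- **Two groups of bases.** -/
theorem two_groups {ι : Type} [Fintype ι] (b : ι → ℕ) (hb : ∀ i, 2 ≤ b i) (u : ι → ℕ → ℤ) {C : ℝ}
    (hu : ∀ i, Simple (b i) C (u i)) (x : ι → ℝ) (A : ℝ) {z : ℝ} (hz : Transcendental ℚ z)
    (hU : ¬ UNumber z) (I J : Set ι) (hIJ : GA (b '' I) ⊓ GA (b '' J) = ⊥)
    (h1 : IsAlgebraic (Subfield.closure (x '' I)) z)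
    (h2 : IsAlgebraic (Subfield.closure (x '' J)) z) :
    ∃ R : ℕ, ∀ M K : ℕ, R * (K + 1) ≤ M →
      ∃ i, ¬ Good (b i) (u i) (x i) M K (A * Real.log (M / (K + 1))) := by
  by_contra hcon
  push Not at hcon
  obtain ⟨m, B, L, hL, h⟩ := key b hb u hu x A hcon
  exact hU (unumber_of_two (disj B hIJ) hz (alg_mono (closure_le_FV h I) h1)
    (alg_mono (closure_le_FV h J) h2))

/-- **One number, two groups of bases.** -/
theorem two_groups_liouville {ι : Type} [Fintype ι] (b : ι → ℕ) (hb : ∀ i, 2 ≤ b i)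
    (u : ι → ℕ → ℤ) {C : ℝ}
    (hu : ∀ i, Simple (b i) C (u i)) (x : ι → ℝ) (A : ℝ) {z : ℝ} (hz : Irrational z)
    (hU : ¬ Liouville z) (I J : Set ι) (hIJ : GA (b '' I) ⊓ GA (b '' J) = ⊥)
    (h1 : z ∈ Subfield.closure (x '' I)) (h2 : z ∈ Subfield.closure (x '' J)) :
    ∃ R : ℕ, ∀ M K : ℕ, R * (K + 1) ≤ M →
      ∃ i, ¬ Good (b i) (u i) (x i) M K (A * Real.log (M / (K + 1))) := by
  by_contra hcon
  push Not at hcon
  obtain ⟨m, B, L, hL, h⟩ := key b hb u hu x A hcon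
  exact hU (two tensor2_thm (disj B hIJ) (closure_le_FV h I h1) (closure_le_FV h J h2) hz)

/-- **Algebraically dependent numbers in independent bases.** -/
theorem dependent {r : ℕ} (b : Fin r → ℕ) (hb : ∀ i, 2 ≤ b i) (u : Fin r → ℕ → ℤ) {C : ℝ}
    (hu : ∀ i, Simple (b i) C (u i)) (x : Fin r → ℝ) (A : ℝ)
    (hind : GIndep fun i => GA {b i}) (hirr : ∀ i, Irrational (x i)) (hU : ∀ i, ¬ UNumber (x i))
    (hdep : ¬ AlgebraicIndependent ℚ x) :
    ∃ R : ℕ, ∀ M K : ℕ, R * (K + 1) ≤ M →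
      ∃ i, ¬ Good (b i) (u i) (x i) M K (A * Real.log (M / (K + 1))) := by
  by_contra hcon
  push Not at hcon
  obtain ⟨m, B, L, hL, h⟩ := key b hb u hu x A hcon
  rw [algebraicIndependent_iff] at hdep
  push Not at hdep
  obtain ⟨P, hP0, hP⟩ := hdep
  obtain ⟨i, hi⟩ := ai (B := B) (hL := hL) tensor2_thm r _ (vindep B hind) x
    (fun i => Subfield.subset_closure (h i)) hirr P hP hP0
  exact hU i hi

end Pool.Agent.Run7.h103.PF
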