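import Mathlib
import Pool.Agent.Run7.h103.PF.Key

set_option autoImplicit false
set_option linter.unusedSectionVars false

/-!
# All bases but one
-/

namespace Pool.Agent.Run7.h103.PF

open Filter Topology Finset
open Pool.Agent.TH796.AL Pool.Agent.TH796.AL.TwoB Pool.Agent.TH796.AL.Ai Pool.Agent.TH796.AL.Grp
open Pool.Agent.TH796.AL.Final Pool.Agent.TH796.AL.Alg

/-- two sets of numbers in two independent bases -/
theorem two_sets {κ : Type} [Fintype κ] (y : κ → ℝ) {b c : ℕ} (hb : 2 ≤ b) (hc : 2 ≤ c)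
    (hbc : Indep b c) (u v : κ → ℕ → ℤ) {C : ℝ} (hu : ∀ j, Simple b C (u j))
    (hv : ∀ j, Simple c C (v j)) (A : ℝ) {z : ℝ} (hz : Transcendental ℚ z)
    (hU : ¬ UNumber z) (S T : Set κ) (hS : IsAlgebraic (Subfield.closure (y '' S)) z)
    (hT : IsAlgebraic (Subfield.closure (y '' T)) z) :
    ∃ R : ℕ, ∀ M K : ℕ, R * (K + 1) ≤ M →
      (∀ j ∈ S, Good b (u j) (y j) M K (A * Real.log (M / (K + 1)))) →
      (∀ j ∈ T, Good c (v j) (y j) M K (A * Real.log (M / (K + 1)))) → False := by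
  classical
  obtain ⟨R, hR⟩ := two_groups (ι := S ⊕ T) (Sum.elim (fun _ => b) (fun _ => c))
    (by rintro (_ | _) <;> assumption) (Sum.elim (fun j => u j) (fun j => v j)) (C := C)
    (by
      rintro (j | j)
      · exact hu j
      · exact hv j) (Sum.elim (fun j => y j) (fun j => y j)) A hz hU
    (Set.range Sum.inl) (Set.range Sum.inr) (by
      rw [eq_bot_iff, ← group_inf hb hc hbc]
      refine inf_le_inf (Subgroup.closure_mono ?_) (Subgroup.closure_mono ?_)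
      · rintro w ⟨d, ⟨_, ⟨j, rfl⟩, rfl⟩, hw⟩
        exact ⟨b, rfl, hw⟩
      · rintro w ⟨d, ⟨_, ⟨j, rfl⟩, rfl⟩, hw⟩
        exact ⟨c, rfl, hw⟩) (by
      refine alg_mono (Subfield.closure_mono ?_) hS
      rintro _ ⟨j, hj, rfl⟩
      exact ⟨Sum.inl ⟨j, hj⟩, ⟨_, rfl⟩, rfl⟩) (by
      refine alg_mono (Subfield.closure_mono ?_) hT
      rintro _ ⟨j, hj, rfl⟩
      exact ⟨Sum.inr ⟨j, hj⟩, ⟨_, rfl⟩, rfl⟩)
  refine ⟨R, fun M K hMK h1 h2 => ?_⟩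
  obtain ⟨i, hi⟩ := hR M K hMK
  rcases i with ⟨j, hj⟩ | ⟨j, hj⟩
  · exact hi (h1 j hj)
  · exact hi (h2 j hj)

/-- **All bases but one.** -/
theorem all_but_one {κ : Type} [Fintype κ] (y : κ → ℝ) (F : Finset ℕ) (hF2 : ∀ b ∈ F, 2 ≤ b)
    (hF : ∀ b ∈ F, ∀ c ∈ F, b ≠ c → Indep b c) (u : ℕ → κ → ℕ → ℤ) {C : ℝ}
    (hu : ∀ b ∈ F, ∀ j, Simple b C (u b j)) (A : ℝ) {z : ℝ} (hz : Transcendental ℚ z)
    (hU : ¬ UNumber z) (J : Set (Set κ))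
    (hJ : ∀ S ∈ J, IsAlgebraic (Subfield.closure (y '' S)) z) :
    ∃ R : ℕ, ∀ M K : ℕ, R * (K + 1) ≤ M → ∃ c : ℕ, ∀ b ∈ F, b ≠ c → ∀ S ∈ J, ∃ j ∈ S,
      ¬ Good b (u b j) (y j) M K (A * Real.log (M / (K + 1))) := by
  classical
  have hex : ∀ t : (F × F) × (J × J), ∃ R : ℕ, t.1.1 ≠ t.1.2 → ∀ M K : ℕ, R * (K + 1) ≤ M →
      (∀ j ∈ (t.2.1 : Set κ),
        Good (t.1.1 : ℕ) (u t.1.1 j) (y j) M K (A * Real.log (M / (K + 1)))) →
      (∀ j ∈ (t.2.2 : Set κ),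
        Good (t.1.2 : ℕ) (u t.1.2 j) (y j) M K (A * Real.log (M / (K + 1)))) → False := by
    rintro ⟨⟨⟨b, hb⟩, ⟨c, hc⟩⟩, ⟨⟨S, hS⟩, ⟨T, hT⟩⟩⟩
    by_cases hbc : b = c
    · refine ⟨0, fun h => absurd ?_ h⟩
      exact Subtype.ext hbc
    · obtain ⟨R, hR⟩ := two_sets y (hF2 b hb) (hF2 c hc) (hF b hb c hc hbc) (u b) (u c) (hu b hb)
        (hu c hc) A hz hU S T (hJ S hS) (hJ T hT)
      exact ⟨R, fun _ => hR⟩
  choose R hR using hex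
  have : Finite ((F × F) × (J × J)) := inferInstance
  have := Fintype.ofFinite ((F × F) × (J × J))
  refine ⟨Finset.univ.sup R, fun M K hMK => ?_⟩
  have hle : ∀ t, R t * (K + 1) ≤ M := fun t =>
    (Nat.mul_le_mul_right _ (Finset.le_sup (Finset.mem_univ t))).trans hMK
  by_contra hcon
  push Not at hcon
  obtain ⟨b, hb, -, S, hS, h1⟩ := hcon 0
  obtain ⟨c, hc, hcb, T, hT, h2⟩ := hcon b
  exact hR ⟨⟨⟨b, hb⟩, ⟨c, hc⟩⟩, ⟨⟨S, hS⟩, ⟨T, hT⟩⟩⟩ (fun h => hcb (congrArg Subtype.val h).symm) M K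
    (hle _) h1 h2

end Pool.Agent.Run7.h103.PF
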