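import Mathlib
import Pool.Agent.Run7.h103.PF.All

set_option autoImplicit false

/-!
# Predictors: definitions used in the statements of the results

The definitions are the ones of the starting result `MP_c9a594_an/TwoBasePredictors`.
-/

namespace Pool.Agent.Run7.h103.PF

/-- the `k`-th digit after the point of `x` in base `b` (`k = 0` is the first one) -/
noncomputable def digit (b : ℕ) (x : ℝ) (k : ℕ) : ℤ := ⌊(b : ℝ) ^ (k + 1) * x⌋ % b

/-- the number of different blocks of `n` consecutive letters of the word `w` -/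
noncomputable def blocks (w : ℕ → ℤ) (n : ℕ) : ℕ :=
  (Set.range fun i : ℕ => fun j : Fin n => w (i + j)).ncard

/-- A word over the alphabet `{0, ..., b - 1}` with at most `C n` blocks of length `n`
for every `n ≥ 1`; for instance the word `0 0 0 ...`, with `C = 1`. -/
structure SimpleWord (b : ℕ) (C : ℝ) (w : ℕ → ℤ) : Prop where
  alphabet : ∀ k, 0 ≤ w k ∧ w k < b
  complexity : ∀ n : ℕ, 1 ≤ n → (blocks w n : ℝ) ≤ C * n

/-- A predictor with `K` states. In the state `s` it announces the letter `out s`; then it reads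
the true letter `d` and moves to the state `step s d`. -/
structure Predictor (K : ℕ) where
  /-- the announced letter -/
  out : Fin K → ℤ
  /-- the next state -/
  step : Fin K → ℤ → Fin K
  /-- the initial state -/
  start : Fin K

/-- the state before reading the letter with index `k` of the word `D` -/
def Predictor.state {K : ℕ} (P : Predictor K) (D : ℕ → ℤ) : ℕ → Fin K
  | 0 => P.start
  | k + 1 => P.step (P.state D k) (D k)

/-- the number of wrong predictions of the predictor among the first `M` letters of `D` -/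
def Predictor.errors {K : ℕ} (P : Predictor K) (D : ℕ → ℤ) (M : ℕ) : ℕ :=
  ((Finset.range M).filter fun k => P.out (P.state D k) ≠ D k).card

/-- Every predictor with at most `K` states which reads the differences between the digits of `x` in
base `b` and the letters of `u` makes more than `E` wrong predictions among the first `M` places. -/
def Unpredictable (b : ℕ) (u : ℕ → ℤ) (x : ℝ) (M K : ℕ) (E : ℝ) : Prop :=
  ∀ k ≤ K, ∀ P : Predictor k, E < P.errors (fun j => digit b x j - u j) M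

/-- multiplicatively independent integers -/
def Independent (b c : ℕ) : Prop := ∀ k l : ℕ, b ^ k = c ^ l → k = 0 ∧ l = 0

/-- the height of an integer polynomial -/
def height (P : Polynomial ℤ) : ℕ := P.support.sup fun i => (P.coeff i).natAbs

/-- U-numbers (Mahler): for some degree `d` and for all `w` there are infinitely many integer
polynomials `P` of degree at most `d` with `0 < |P(x)| ≤ H(P) ^ (-w)` -/
def UNumber (x : ℝ) : Prop :=
  ∃ d : ℕ, ∀ w : ℕ, {P : Polynomial ℤ | P.natDegree ≤ d ∧ 0 < |Polynomial.aeval x P| ∧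
    |Polynomial.aeval x P| * (height P : ℝ) ^ w ≤ 1}.Infinite

/-! ### comparison with the definitions of the library -/

lemma unumber_iff {x : ℝ} : UNumber x ↔ Pool.Agent.TH796.AL.Ai.UNumber x := Iff.rfl

/-- `e`, `π` and the logarithms of rational numbers are transcendental and not U-numbers -/
lemma special {z : ℝ} (h : z = Real.exp 1 ∨ z = Real.pi ∨ ∃ q : ℚ, 0 < q ∧ q ≠ 1 ∧ z = Real.log q) :
    Transcendental ℚ z ∧ ¬ UNumber z := by
  have hm := Pool.Agent.TH796.AL.Ai.measT_of h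
  exact ⟨Pool.Agent.TH796.AL.Alg.transc_of_measT hm, Pool.Agent.TH796.AL.Ai.not_unumber hm⟩

lemma state_eq {K : ℕ} (P : Predictor K) (D : ℕ → ℤ) (k : ℕ) :
    P.state D k = Pool.Agent.R473.TB.st P.step P.start D k := by
  induction k with
  | zero => rfl
  | succ k ih => rw [Predictor.state, Pool.Agent.R473.TB.st, ih]

lemma errors_eq {K : ℕ} (P : Predictor K) (D : ℕ → ℤ) (M : ℕ) :
    P.errors D M = Pool.Agent.R473.TB.errs P.out P.step P.start D M := by
  unfold Predictor.errors Pool.Agent.R473.TB.errs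
  simp only [state_eq]

lemma unpredictable_of {b : ℕ} {u : ℕ → ℤ} {x : ℝ} {M K : ℕ} {E : ℝ}
    (h : ¬ Good b u x M K E) : Unpredictable b u x M K E := by
  intro k hk P
  by_contra hcon
  push Not at hcon
  refine h ⟨k, hk, P.out, P.step, P.start, ?_⟩
  rw [errors_eq] at hcon
  exact hcon

lemma simple_of {b : ℕ} {C : ℝ} {w : ℕ → ℤ} (h : SimpleWord b C w) : Simple b C w :=
  ⟨h.alphabet, h.complexity⟩

/-- a root of a quadratic polynomial over a field -/
lemma alg_quad {F : Subfield ℝ} {p q z : ℝ} (hp : p ∈ F) (hq : q ∈ F)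
    (h : z ^ 2 + p * z + q = 0) : IsAlgebraic F z := by
  refine ⟨Polynomial.X ^ 2 + Polynomial.C (⟨p, hp⟩ : F) * Polynomial.X +
    Polynomial.C (⟨q, hq⟩ : F), ?_, ?_⟩
  · intro h0
    have h1 := congrArg (fun P : Polynomial F => P.coeff 2) h0
    simp [Polynomial.coeff_X, Polynomial.coeff_C] at h1
  · simp only [map_add, map_mul, map_pow, Polynomial.aeval_X, Polynomial.aeval_C]
    exact h

/-- an element of the field -/
lemma alg_mem {F : Subfield ℝ} {z : ℝ} (hz : z ∈ F) : IsAlgebraic F z :=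
  isAlgebraic_algebraMap (⟨z, hz⟩ : F)

/-- the word `0 0 0 ...` -/
lemma simpleWord_zero {b : ℕ} (hb : 2 ≤ b) : SimpleWord b 1 (fun _ => 0) := by
  refine ⟨fun _ => ⟨le_rfl, by positivity⟩, fun n hn => ?_⟩
  have h1 : (Set.range fun _ : ℕ => fun _ : Fin n => (0 : ℤ)) = {fun _ => 0} := by
    ext f
    simp [eq_comm]
  have h2 : blocks (fun _ => 0) n = 1 := by
    unfold blocks
    rw [h1, Set.ncard_singleton]
  rw [h2, one_mul]
  exact_mod_cast hn

/-- **All bases but one**, for sets of numbers over which `z` is algebraic. -/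
theorem main {κ : Type} [Fintype κ] (y : κ → ℝ) (F : Finset ℕ) (hF2 : ∀ b ∈ F, 2 ≤ b)
    (hF : ∀ b ∈ F, ∀ c ∈ F, b ≠ c → Independent b c) (u : ℕ → κ → ℕ → ℤ) {C : ℝ}
    (hu : ∀ b ∈ F, ∀ j, SimpleWord b C (u b j)) (A : ℝ) {z : ℝ} (hz : Transcendental ℚ z)
    (hU : ¬ UNumber z) (J : Set (Set κ))
    (hJ : ∀ S ∈ J, IsAlgebraic (Subfield.closure (y '' S)) z) :
    ∃ R : ℕ, ∀ M K : ℕ, R * (K + 1) ≤ M → ∃ c : ℕ, ∀ b ∈ F, b ≠ c → ∀ S ∈ J, ∃ j ∈ S,
      Unpredictable b (u b j) (y j) M K (A * Real.log (M / (K + 1))) := by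
  obtain ⟨R, hR⟩ := all_but_one y F hF2 hF u (fun b hb j => simple_of (hu b hb j)) A hz hU J hJ
  refine ⟨R, fun M K hMK => ?_⟩
  obtain ⟨c, hc⟩ := hR M K hMK
  refine ⟨c, fun b hb hbc S hS => ?_⟩
  obtain ⟨j, hj, h⟩ := hc b hb hbc S hS
  exact ⟨j, hj, unpredictable_of h⟩

/-- the version for pairs -/
theorem main_pairs {κ : Type} [Fintype κ] (y : κ → ℝ) (F : Finset ℕ) (hF2 : ∀ b ∈ F, 2 ≤ b)
    (hF : ∀ b ∈ F, ∀ c ∈ F, b ≠ c → Independent b c) (u : ℕ → κ → ℕ → ℤ) {C : ℝ}
    (hu : ∀ b ∈ F, ∀ j, SimpleWord b C (u b j)) (A : ℝ) {z : ℝ} (hz : Transcendental ℚ z)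
    (hU : ¬ UNumber z)
    (hJ : ∀ i j, i ≠ j → IsAlgebraic (Subfield.closure {y i, y j}) z) :
    ∃ R : ℕ, ∀ M K : ℕ, R * (K + 1) ≤ M → ∃ c : ℕ, ∀ b ∈ F, b ≠ c → ∀ i j, i ≠ j →
      Unpredictable b (u b i) (y i) M K (A * Real.log (M / (K + 1))) ∨
      Unpredictable b (u b j) (y j) M K (A * Real.log (M / (K + 1))) := by
  obtain ⟨R, hR⟩ := main y F hF2 hF u hu A hz hU {S | ∃ i j, i ≠ j ∧ S = {i, j}} (by
    rintro S ⟨i, j, hij, rfl⟩
    rw [Set.image_pair]
    exact hJ i j hij)
  refine ⟨R, fun M K hMK => ?_⟩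
  obtain ⟨c, hc⟩ := hR M K hMK
  refine ⟨c, fun b hb hbc i j hij => ?_⟩
  obtain ⟨k, hk, h⟩ := hc b hb hbc {i, j} ⟨i, j, hij, rfl⟩
  rcases hk with rfl | hk
  · exact Or.inl h
  · rw [Set.mem_singleton_iff] at hk
    rw [hk] at h
    exact Or.inr h

end Pool.Agent.Run7.h103.PF
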