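import Mathlib
import Pool.Agent.Run7.h103.PF.Key
import Pool.Agent.TH796.AL.Strong

set_option autoImplicit false
set_option linter.unusedSectionVars false

/-!
# Algebraic numbers in fields generated by numbers with predicted digits, over algebraic fields
-/

namespace Pool.Agent.Run7.h103.PF

open Filter Topology Pool.Agent.TH932.Abs Pool.Agent.TH932.Germs Pool.Agent.TH932.Chi
open Pool.Agent.TH932.Words Pool.Agent.TH932.Scale Finset
open Pool.Agent.TH796.AL Pool.Agent.TH796.AL.TwoB Pool.Agent.TH796.AL.Ai Pool.Agent.TH796.AL.Grp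
open Pool.Agent.TH796.AL.Final Pool.Agent.TH796.AL.Alg

/-- **Algebraic numbers over a field of algebraic numbers.** -/
theorem no_algebraic_over {ι : Type} [Fintype ι] (b : ι → ℕ) (hb : ∀ i, 2 ≤ b i)
    (u : ι → ℕ → ℤ) {C : ℝ} (hu : ∀ i, Simple (b i) C (u i)) (x : ι → ℝ) (A : ℝ)
    {F : Subfield ℝ} (hF : ∀ a ∈ F, IsAlgebraic ℚ a) {y : ℝ}
    (hy : y ∈ Subfield.closure ((F : Set ℝ) ∪ Set.range x)) (halg : IsAlgebraic ℚ y)
    (hyF : y ∉ F) :
    ∃ R : ℕ, ∀ M K : ℕ, R * (K + 1) ≤ M →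
      ∃ i, ¬ Good (b i) (u i) (x i) M K (A * Real.log (M / (K + 1))) := by
  by_contra hcon
  push Not at hcon
  obtain ⟨m, B, L, hL, h⟩ := key b hb u hu x A hcon
  exact hyF (Pool.Agent.TH796.AL.Strong.coreK B hL x (fun i => RepV.rep (h i)) F hF hy halg)

end Pool.Agent.Run7.h103.PF
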