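import Mathlib
import Pool.Agent.Run7.h103.PF.Over

set_option autoImplicit false
set_option linter.unusedSectionVars false

/-!
# Several numbers: simultaneous approximations and linear relations
-/

namespace Pool.Agent.Run7.h103.PF

open Filter Topology Pool.Agent.TH932.Abs Pool.Agent.TH932.Germs Pool.Agent.TH932.Chi
open Pool.Agent.TH932.Words Pool.Agent.TH932.Scale Finset
open Pool.Agent.TH796.AL Pool.Agent.TH796.AL.TwoB Pool.Agent.TH796.AL.Ai Pool.Agent.TH796.AL.Grp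
open Pool.Agent.TH796.AL.Final Pool.Agent.TH796.AL.Alg

/-- `1` and the numbers `z_j`, `j ∈ S`, do not have simultaneous rational approximations of
arbitrary order -/
def NotSim {κ : Type} (S : Set κ) (z : κ → ℝ) : Prop :=
  ∃ w Q : ℕ, ∀ q : ℕ, Q ≤ q → ∀ p : κ → ℤ, ∃ j ∈ S, 1 < |q * z j - p j| * (q : ℝ) ^ w

/-- one number in two fields: approximations of every order at the given scales -/
lemma approx_one {m : ℕ} {B : Base m} {L : ℕ → ℝ} {hL : Tendsto L atTop atTop}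
    {V W : Submodule ℝ (Fin m → ℝ)} (hVW : Disjoint V W) {x : ℝ}
    (hx : x ∈ FV B hL V) (hy : x ∈ FV B hL W) :
    ∃ (H : ℝ) (c d : ℕ → ℤ), (∀ᶠ n in (UU : Filter ℕ), c n ≠ 0) ∧
      (∀ᶠ n in (UU : Filter ℕ), |(c n : ℝ)| ≤ Real.exp (H * L n)) ∧
      ∀ E : ℝ, ∀ᶠ n in (UU : Filter ℕ), |(c n : ℝ) * x - d n| ≤ Real.exp (-(E * L n)) := by
  obtain ⟨H, c, h1, h2, h3⟩ := tf tensor2_thm hVW ![x, 1] ![1, -x] (by
      intro j
      fin_cases j
      · exact hx
      · exact (FV B hL V).one_mem) (by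
      intro j
      fin_cases j
      · exact (FV B hL W).one_mem
      · exact (FV B hL W).neg_mem hy) (by simp [Fin.sum_univ_two]) 0 (by simp)
  refine ⟨H, c 0, fun n => -c 1 n, h1, h2 0, fun E => ?_⟩
  filter_upwards [h3 E] with n hn
  simp only [Fin.sum_univ_two, Matrix.cons_val_zero, Matrix.cons_val_one, mul_one] at hn
  push_cast
  rwa [sub_neg_eq_add]

/-- several numbers, each in two fields: simultaneous approximations -/
lemma approx_several {m : ℕ} {B : Base m} {L : ℕ → ℝ} {hL : Tendsto L atTop atTop} {κ : Type}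
    [Fintype κ] {V W : κ → Submodule ℝ (Fin m → ℝ)} (hVW : ∀ j, Disjoint (V j) (W j))
    {z : κ → ℝ} (hV : ∀ j, z j ∈ FV B hL (V j)) (hW : ∀ j, z j ∈ FV B hL (W j)) :
    ¬ NotSim Set.univ z := by
  classical
  rintro ⟨w, Q, hQ⟩
  choose H c d h1 h2 h3 using fun j => approx_one (hVW j) (hV j) (hW j)
  set HH : ℝ := ∑ j, |H j| + 2 with hHH
  have hHH0 : 0 ≤ HH := by
    rw [hHH]
    have : 0 ≤ ∑ j, |H j| := Finset.sum_nonneg fun _ _ => abs_nonneg _
    linarith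
  obtain ⟨n, g1, g2, g3, g4⟩ := ((eventually_all.2 h1).and ((eventually_all.2 h2).and
    ((eventually_all.2 fun j => h3 j (HH * (w + 1) + 1)).and
      (ev_of_atTop (hL.eventually_ge_atTop (max 1 (Real.log (Q + 1)))))))).exists
  have hL1 : 1 ≤ L n := (le_max_left _ _).trans g4
  have hLQ : Real.log (Q + 1) ≤ L n := (le_max_right _ _).trans g4
  -- the denominator
  set q : ℕ := (∏ j, (c j n).natAbs) * ⌈Real.exp (L n)⌉₊ with hq
  have hprod1 : 1 ≤ ∏ j, (c j n).natAbs :=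
    Finset.one_le_prod' fun j _ => Int.natAbs_pos.2 (g1 j)
  have hce : Real.exp (L n) ≤ (⌈Real.exp (L n)⌉₊ : ℝ) := Nat.le_ceil _
  have hce2 : (⌈Real.exp (L n)⌉₊ : ℝ) ≤ Real.exp (2 * L n) := by
    have h5 : (⌈Real.exp (L n)⌉₊ : ℝ) < Real.exp (L n) + 1 := Nat.ceil_lt_add_one (Real.exp_pos _).le
    have h6 : (2 : ℝ) ≤ Real.exp (L n) := by
      have := Real.add_one_le_exp (L n)
      linarith
    have h7 : Real.exp (2 * L n) = Real.exp (L n) * Real.exp (L n) := by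
      rw [← Real.exp_add]; ring_nf
    rw [h7]
    nlinarith
  have habs : ∀ j, (((c j n).natAbs : ℕ) : ℝ) = |(c j n : ℝ)| := fun j => by
    rw [Nat.cast_natAbs, Int.cast_abs]
  have hqle : (q : ℝ) ≤ Real.exp (HH * L n) := by
    rw [hq]
    push_cast
    simp only [habs]
    have h5 : ∏ j, |(c j n : ℝ)| ≤ ∏ j, Real.exp (|H j| * L n) := by
      refine Finset.prod_le_prod (fun _ _ => abs_nonneg _) fun j _ => ?_
      refine (g2 j).trans (Real.exp_le_exp.2 ?_)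
      exact mul_le_mul_of_nonneg_right (le_abs_self _) (by linarith)
    have h6 : HH * L n = ∑ j, |H j| * L n + 2 * L n := by
      rw [hHH, add_mul, Finset.sum_mul]
    rw [h6, Real.exp_add, Real.exp_sum]
    exact mul_le_mul h5 hce2 (by positivity) (by positivity)
  have hqQ : Q ≤ q := by
    have h5 : (Q : ℝ) + 1 ≤ Real.exp (L n) := by
      rw [← Real.exp_log (show (0 : ℝ) < Q + 1 by positivity)]
      exact Real.exp_le_exp.2 hLQ
    have h6 : (⌈Real.exp (L n)⌉₊ : ℕ) ≤ q := Nat.le_mul_of_pos_left _ hprod1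
    have h7 : (Q : ℝ) ≤ (⌈Real.exp (L n)⌉₊ : ℝ) := by linarith
    have h8 : Q ≤ ⌈Real.exp (L n)⌉₊ := by exact_mod_cast h7
    exact h8.trans h6
  -- the numerators
  have hdiv : ∀ j, ∃ e : ℤ, (q : ℤ) = c j n * e ∧ |(e : ℝ)| ≤ q := by
    intro j
    have h5 : (c j n) ∣ (q : ℤ) := by
      rw [← Int.natAbs_dvd, Int.natCast_dvd_natCast, hq]
      exact (Finset.dvd_prod_of_mem _ (Finset.mem_univ j)).mul_right _
    obtain ⟨e, he⟩ := h5
    refine ⟨e, he, ?_⟩
    have h6 : (q : ℝ) = |(c j n : ℝ)| * |(e : ℝ)| := by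
      rw [← abs_mul, ← Int.cast_mul, ← he]
      simp
    have h7 : (1 : ℝ) ≤ |(c j n : ℝ)| := by
      rw [← habs]
      exact_mod_cast Int.natAbs_pos.2 (g1 j)
    rw [h6]
    nlinarith [abs_nonneg (e : ℝ)]
  choose e he1 he2 using hdiv
  obtain ⟨j, _, hj⟩ := hQ q hqQ (fun j => d j n * e j)
  refine absurd hj (not_lt.2 ?_)
  have h5 : (q : ℝ) * z j - ((d j n * e j : ℤ) : ℝ) = e j * ((c j n : ℝ) * z j - d j n) := by
    have h6 : (q : ℝ) = (c j n : ℝ) * e j := by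
      have := congrArg (fun t : ℤ => (t : ℝ)) (he1 j)
      push_cast at this
      exact this
    rw [h6]
    push_cast
    ring
  rw [h5, abs_mul]
  have hq0 : (0 : ℝ) ≤ q := by positivity
  calc |(e j : ℝ)| * |(c j n : ℝ) * z j - d j n| * (q : ℝ) ^ w
      ≤ q * Real.exp (-((HH * (w + 1) + 1) * L n)) * (q : ℝ) ^ w := by
        gcongr
        · exact he2 j
        · exact g3 j
    _ = (q : ℝ) ^ (w + 1) * Real.exp (-((HH * (w + 1) + 1) * L n)) := by ring
    _ ≤ Real.exp (HH * L n) ^ (w + 1) * Real.exp (-((HH * (w + 1) + 1) * L n)) := by gcongr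
    _ = Real.exp (-L n) := by
        rw [← Real.exp_nat_mul, ← Real.exp_add]
        push_cast
        ring_nf
    _ ≤ 1 := Real.exp_le_one_iff.2 (by linarith)

/-- **Several numbers, each in two fields.** -/
theorem several {ι : Type} [Fintype ι] (b : ι → ℕ) (hb : ∀ i, 2 ≤ b i)
    (u : ι → ℕ → ℤ) {C : ℝ}
    (hu : ∀ i, Simple (b i) C (u i)) (x : ι → ℝ) (A : ℝ) {κ : Type} [Fintype κ] (z : κ → ℝ)
    (hz : NotSim Set.univ z) (I J : κ → Set ι) (hIJ : ∀ j, GA (b '' I j) ⊓ GA (b '' J j) = ⊥)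
    (h1 : ∀ j, z j ∈ Subfield.closure (x '' I j)) (h2 : ∀ j, z j ∈ Subfield.closure (x '' J j)) :
    ∃ R : ℕ, ∀ M K : ℕ, R * (K + 1) ≤ M →
      ∃ i, ¬ Good (b i) (u i) (x i) M K (A * Real.log (M / (K + 1))) := by
  by_contra hcon
  push Not at hcon
  obtain ⟨m, B, L, hL, h⟩ := key b hb u hu x A hcon
  exact approx_several (fun j => disj B (hIJ j)) (fun j => closure_le_FV h (I j) (h1 j))
    (fun j => closure_le_FV h (J j) (h2 j)) hz

/-- **Each set contains a number which is unpredictable in all bases but one.** -/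
theorem each {κ : Type} [Fintype κ] (y : κ → ℝ) (F : Finset ℕ) (hF2 : ∀ b ∈ F, 2 ≤ b)
    (hF : ∀ b ∈ F, ∀ c ∈ F, b ≠ c → Indep b c) (u : ℕ → κ → ℕ → ℤ) {C : ℝ}
    (hu : ∀ b ∈ F, ∀ j, Simple b C (u b j)) (A : ℝ) (J : Set (Set κ))
    (hJ : ∀ S ∈ J, NotSim S y) :
    ∃ R : ℕ, ∀ M K : ℕ, R * (K + 1) ≤ M → ∀ S ∈ J, ∃ j ∈ S, ∃ c : ℕ, ∀ b ∈ F, b ≠ c →
      ¬ Good b (u b j) (y j) M K (A * Real.log (M / (K + 1))) := by
  classical
  have hex : ∀ t : J × (κ → F × F), ∃ R : ℕ, (∀ j, (t.2 j).1 ≠ (t.2 j).2) → ∀ M K : ℕ,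
      R * (K + 1) ≤ M → ∃ j ∈ (t.1 : Set κ),
        ¬ (Good ((t.2 j).1 : ℕ) (u (t.2 j).1 j) (y j) M K (A * Real.log (M / (K + 1))) ∧
          Good ((t.2 j).2 : ℕ) (u (t.2 j).2 j) (y j) M K (A * Real.log (M / (K + 1)))) := by
    rintro ⟨⟨S, hS⟩, t⟩
    by_cases ht : ∀ j, (t j).1 ≠ (t j).2
    · obtain ⟨R, hR⟩ := several (ι := S ⊕ S)
        (Sum.elim (fun j => ((t j).1 : ℕ)) (fun j => ((t j).2 : ℕ)))
        (by rintro (j | j); exacts [hF2 _ (t j).1.2, hF2 _ (t j).2.2])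
        (Sum.elim (fun j => u (t j).1 j) (fun j => u (t j).2 j)) (C := C)
        (by rintro (j | j); exacts [hu _ (t j).1.2 j, hu _ (t j).2.2 j])
        (Sum.elim (fun j => y j) (fun j => y j)) A (κ := S) (fun j => y j) (by
          obtain ⟨w, Q, h⟩ := hJ S hS
          refine ⟨w, Q, fun q hq p => ?_⟩
          obtain ⟨j, hj, h'⟩ := h q hq (fun j => if hj : j ∈ S then p ⟨j, hj⟩ else 0)
          refine ⟨⟨j, hj⟩, trivial, ?_⟩
          rw [dif_pos hj] at h'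
          exact h')
        (fun j => {Sum.inl j}) (fun j => {Sum.inr j}) (fun j => by
          rw [Set.image_singleton, Set.image_singleton]
          exact group_inf (hF2 _ (t j).1.2) (hF2 _ (t j).2.2)
            (hF _ (t j).1.2 _ (t j).2.2 fun h => ht j (Subtype.ext h)))
        (fun j => Subfield.subset_closure (by simp)) (fun j => Subfield.subset_closure (by simp))
      refine ⟨R, fun _ M K hMK => ?_⟩
      obtain ⟨j | j, hj⟩ := hR M K hMK
      · exact ⟨j, j.2, fun h => hj h.1⟩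
      · exact ⟨j, j.2, fun h => hj h.2⟩
    · exact ⟨0, fun h => absurd h ht⟩
  choose R hR using hex
  have : Finite (J × (κ → F × F)) := inferInstance
  have := Fintype.ofFinite (J × (κ → F × F))
  refine ⟨Finset.univ.sup R, fun M K hMK S hS => ?_⟩
  have hle : ∀ t, R t * (K + 1) ≤ M := fun t =>
    (Nat.mul_le_mul_right _ (Finset.le_sup (Finset.mem_univ t))).trans hMK
  by_contra hcon
  push Not at hcon
  -- two bases for each number of `S`
  have htwo : ∀ j ∈ S, ∃ b ∈ F, ∃ c ∈ F, b ≠ c ∧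
      Good b (u b j) (y j) M K (A * Real.log (M / (K + 1))) ∧
      Good c (u c j) (y j) M K (A * Real.log (M / (K + 1))) := by
    intro j hj
    obtain ⟨b, hb, -, h1⟩ := hcon j hj 0
    obtain ⟨c, hc, hcb, h2⟩ := hcon j hj b
    exact ⟨b, hb, c, hc, fun h => hcb h.symm, h1, h2⟩
  obtain ⟨j0, hj0, -⟩ : ∃ j ∈ S, True := by
    obtain ⟨w, Q, h⟩ := hJ S hS
    obtain ⟨j, hj, -⟩ := h Q le_rfl (fun _ => 0)
    exact ⟨j, hj, trivial⟩
  obtain ⟨b0, hb0, c0, hc0, hbc0, -⟩ := htwo j0 hj0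
  have hch : ∀ j, ∃ t : F × F, t.1 ≠ t.2 ∧ (j ∈ S →
      Good (t.1 : ℕ) (u t.1 j) (y j) M K (A * Real.log (M / (K + 1))) ∧
      Good (t.2 : ℕ) (u t.2 j) (y j) M K (A * Real.log (M / (K + 1)))) := by
    intro j
    by_cases hj : j ∈ S
    · obtain ⟨b, hb, c, hc, hbc, h1, h2⟩ := htwo j hj
      exact ⟨(⟨b, hb⟩, ⟨c, hc⟩), fun h => hbc (congrArg Subtype.val h), fun _ => ⟨h1, h2⟩⟩
    · exact ⟨(⟨b0, hb0⟩, ⟨c0, hc0⟩), fun h => hbc0 (congrArg Subtype.val h), fun h => absurd h hj⟩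
  choose t ht1 ht2 using hch
  obtain ⟨j, hj, h⟩ := hR (⟨S, hS⟩, t) ht1 M K (hle _)
  exact h (ht2 j hj)

/-- **Linear relations between numbers of two fields.** The coefficients of the relations are
polynomially bounded in terms of the order. -/
theorem linear {ι : Type} [Fintype ι] (b : ι → ℕ) (hb : ∀ i, 2 ≤ b i)
    (u : ι → ℕ → ℤ) {C : ℝ}
    (hu : ∀ i, Simple (b i) C (u i)) (x : ι → ℝ) (A : ℝ) {s : ℕ} (z y : Fin s → ℝ)
    (hz : ∃ w Q : ℕ, ∀ a : Fin s → ℤ, a ≠ 0 → ∀ H : ℕ, Q ≤ H → (∀ j, |a j| ≤ H) →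
      1 < |∑ j, (a j : ℝ) * z j| * (H : ℝ) ^ w)
    (I J : Set ι) (hIJ : GA (b '' I) ⊓ GA (b '' J) = ⊥)
    (h1 : ∀ j, z j ∈ Subfield.closure (x '' I)) (h2 : ∀ j, y j ∈ Subfield.closure (x '' J))
    (hsum : ∑ j, z j * y j = 0) (hy : ∃ j, y j ≠ 0) :
    ∃ R : ℕ, ∀ M K : ℕ, R * (K + 1) ≤ M →
      ∃ i, ¬ Good (b i) (u i) (x i) M K (A * Real.log (M / (K + 1))) := by
  by_contra hcon
  push Not at hcon
  obtain ⟨m, B, L, hL, h⟩ := key b hb u hu x A hcon
  obtain ⟨w, Q, hQ⟩ := hz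
  obtain ⟨j0, hj0⟩ := hy
  obtain ⟨H, c, g1, g2, g3⟩ := tf tensor2_thm (disj B hIJ) z y
    (fun j => closure_le_FV h I (h1 j)) (fun j => closure_le_FV h J (h2 j)) hsum j0 hj0
  set HH : ℝ := |H| + 2 with hHH
  obtain ⟨n, k1, k2, k3, k4⟩ := (g1.and ((eventually_all.2 g2).and ((g3 (HH * w + 1)).and
      (ev_of_atTop (hL.eventually_ge_atTop (max 1 (Real.log (Q + 1)))))))).exists
  have hL1 : 1 ≤ L n := (le_max_left _ _).trans k4
  have hLQ : Real.log (Q + 1) ≤ L n := (le_max_right _ _).trans k4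
  set T : ℕ := ⌈Real.exp ((|H| + 1) * L n)⌉₊ with hT
  have hT1 : Real.exp ((|H| + 1) * L n) ≤ T := Nat.le_ceil _
  have hT2 : (T : ℝ) ≤ Real.exp (HH * L n) := by
    have h5 : (T : ℝ) < Real.exp ((|H| + 1) * L n) + 1 := Nat.ceil_lt_add_one (Real.exp_pos _).le
    have h6 : (2 : ℝ) ≤ Real.exp (L n) := by
      have := Real.add_one_le_exp (L n)
      linarith
    have h7 : Real.exp (HH * L n) = Real.exp ((|H| + 1) * L n) * Real.exp (L n) := by
      rw [← Real.exp_add, hHH]; ring_nf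
    have h8 : (1 : ℝ) ≤ Real.exp ((|H| + 1) * L n) :=
      Real.one_le_exp (mul_nonneg (by positivity) (by linarith))
    rw [h7]
    nlinarith
  have hTQ : Q ≤ T := by
    have h5 : (Q : ℝ) + 1 ≤ Real.exp (L n) := by
      rw [← Real.exp_log (show (0 : ℝ) < Q + 1 by positivity)]
      exact Real.exp_le_exp.2 hLQ
    have h6 : Real.exp (L n) ≤ Real.exp ((|H| + 1) * L n) :=
      Real.exp_le_exp.2 (by nlinarith [abs_nonneg H])
    have h7 : (Q : ℝ) ≤ T := by linarith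
    exact_mod_cast h7
  have h5 := hQ (fun j => c j n) (fun h0 => k1 (congrFun h0 j0)) T hTQ (fun j => by
    have h6 : |(c j n : ℝ)| ≤ T := by
      refine (k2 j).trans (le_trans (Real.exp_le_exp.2 ?_) hT1)
      have := le_abs_self H
      nlinarith
    rw [← Int.cast_abs] at h6
    exact_mod_cast h6)
  refine absurd h5 (not_lt.2 ?_)
  calc |∑ j, (c j n : ℝ) * z j| * (T : ℝ) ^ w
      ≤ Real.exp (-((HH * w + 1) * L n)) * Real.exp (HH * L n) ^ w := by gcongr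
    _ = Real.exp (-L n) := by
        rw [← Real.exp_nat_mul, ← Real.exp_add]
        ring_nf
    _ ≤ 1 := Real.exp_le_one_iff.2 (by linarith)

/-- **Linear independence over the algebraic numbers.** -/
theorem over_algebraic {ι : Type} [Fintype ι] (b : ι → ℕ) (hb : ∀ i, 2 ≤ b i)
    (u : ι → ℕ → ℤ) {C : ℝ}
    (hu : ∀ i, Simple (b i) C (u i)) (x : ι → ℝ) (A : ℝ) {s : ℕ} (z α : Fin s → ℝ)
    (hz : ∀ j, z j ∈ Subfield.closure (Set.range x)) (hind : LinearIndependent ℚ z)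
    (hα : ∀ j, IsAlgebraic ℚ (α j)) (hsum : ∑ j, α j * z j = 0) (hne : ∃ j, α j ≠ 0) :
    ∃ R : ℕ, ∀ M K : ℕ, R * (K + 1) ≤ M →
      ∃ i, ¬ Good (b i) (u i) (x i) M K (A * Real.log (M / (K + 1))) := by
  classical
  by_contra hcon
  push Not at hcon
  obtain ⟨m, B, L, hL, h⟩ := key b hb u hu x A hcon
  have hzF : ∀ j, z j ∈ FV B hL (⊤ : Submodule ℝ (Fin m → ℝ)) := by
    intro j
    refine (Subfield.closure_le.2 ?_) (hz j)
    rintro _ ⟨i, rfl⟩
    exact Subfield.subset_closure (RepV.mono le_top (h i))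
  obtain ⟨q, hq0, hq⟩ := common hzF
  -- a basis of the span of the `α j`
  obtain ⟨j0, hj0⟩ := hne
  set S : Submodule ℚ ℝ := Submodule.span ℚ (Set.range α) with hS
  have : Module.Finite ℚ S := Module.Finite.span_of_finite ℚ (Set.finite_range α)
  set β := Module.finBasis ℚ S with hβ
  have hαS : ∀ j, α j ∈ S := fun j => Submodule.subset_span ⟨j, rfl⟩
  have hβalg : ∀ l, IsAlgebraic ℚ ((β l : S) : ℝ) := by
    intro l
    have h1 : S ≤ Subalgebra.toSubmodule (integralClosure ℚ ℝ) := by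
      rw [hS, Submodule.span_le]
      rintro _ ⟨j, rfl⟩
      exact (hα j).isIntegral
    exact (h1 (β l).2 : IsIntegral ℚ _).isAlgebraic
  have hβind : LinearIndependent ℚ (fun l => ((β l : S) : ℝ)) :=
    β.linearIndependent.map' S.subtype (Submodule.ker_subtype _)
  have hexp : ∀ j, α j = ∑ l, (β.repr ⟨α j, hαS j⟩ l : ℝ) * (β l : ℝ) := by
    intro j
    have h1 := congrArg (Subtype.val) (β.sum_repr ⟨α j, hαS j⟩)
    rw [AddSubmonoidClass.coe_finsetSum] at h1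
    refine h1.symm.trans ?_
    refine Finset.sum_congr rfl fun l _ => ?_
    rw [Submodule.coe_smul, Rat.smul_def]
  have hrel : ∑ l, (β l : ℝ) * (∑ j, (β.repr ⟨α j, hαS j⟩ l : ℝ) * (q * z j)) = 0 := by
    have h1 : ∑ l, (β l : ℝ) * (∑ j, (β.repr ⟨α j, hαS j⟩ l : ℝ) * (q * z j)) =
        q * ∑ j, α j * z j := by
      simp_rw [Finset.mul_sum]
      rw [Finset.sum_comm]
      refine Finset.sum_congr rfl fun j _ => ?_
      conv_rhs => rw [hexp j]
      rw [Finset.sum_mul, Finset.mul_sum]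
      exact Finset.sum_congr rfl fun l _ => by ring
    rw [h1, hsum, mul_zero]
  have hrep : ∀ l, Rep B hL (∑ j, (β.repr ⟨α j, hαS j⟩ l : ℝ) * (q * z j)) := by
    intro l
    refine RepV.rep (V := (⊤ : Submodule ℝ (Fin m → ℝ))) ?_
    exact (RV B hL ⊤).sum_mem fun j _ => (RV B hL ⊤).mul_mem (repV_const B hL ⊤ _) (hq j)
  have h0 := lin_thm m B L hL _ (fun l => ((β l : S) : ℝ)) hβalg hβind _ hrep hrel
  have h1 : ∀ l, ∑ j, (β.repr ⟨α j, hαS j⟩ l) • z j = 0 := by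
    intro l
    have h2 := h0 l
    have h3 : ∑ j, (β.repr ⟨α j, hαS j⟩ l : ℝ) * (q * z j) =
        q * ∑ j, (β.repr ⟨α j, hαS j⟩ l) • z j := by
      rw [Finset.mul_sum]
      refine Finset.sum_congr rfl fun j _ => ?_
      rw [Rat.smul_def]
      ring
    rw [h3] at h2
    exact (mul_eq_zero.1 h2).resolve_left hq0
  have h2 : ∀ l j, β.repr ⟨α j, hαS j⟩ l = 0 := fun l =>
    Fintype.linearIndependent_iff.1 hind _ (h1 l)
  apply hj0
  rw [hexp j0]
  refine Finset.sum_eq_zero fun l _ => ?_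
  rw [h2 l j0, Rat.cast_zero, zero_mul]

end Pool.Agent.Run7.h103.PF
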