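import Mathlib
import Pool.Agent.Run7.h103.PF.Defs
import Pool.Agent.Run7.h103.PF.Several

set_option autoImplicit false
set_option linter.unusedSectionVars false

/-!
# Several numbers: the statements for predictors
-/

namespace Pool.Agent.Run7.h103.PF

open Finset

lemma indep_of {F : Finset ℕ} (hF : ∀ b ∈ F, ∀ c ∈ F, b ≠ c → Independent b c) :
    ∀ b ∈ F, ∀ c ∈ F, b ≠ c → Pool.Agent.TH796.AL.TwoB.Indep b c := hF

/-- **Each set contains a number which is unpredictable in all bases but one.** -/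
theorem each_set {κ : Type} [Fintype κ] (y : κ → ℝ) (F : Finset ℕ) (hF2 : ∀ b ∈ F, 2 ≤ b)
    (hF : ∀ b ∈ F, ∀ c ∈ F, b ≠ c → Independent b c) (u : ℕ → κ → ℕ → ℤ) {C : ℝ}
    (hu : ∀ b ∈ F, ∀ j, SimpleWord b C (u b j)) (A : ℝ) (J : Set (Set κ))
    (hJ : ∀ S ∈ J, NotSim S y) :
    ∃ R : ℕ, ∀ M K : ℕ, R * (K + 1) ≤ M → ∀ S ∈ J, ∃ j ∈ S, ∃ c : ℕ, ∀ b ∈ F, b ≠ c →
      Unpredictable b (u b j) (y j) M K (A * Real.log (M / (K + 1))) := by
  obtain ⟨R, hR⟩ := each y F hF2 (indep_of hF) u (fun b hb j => simple_of (hu b hb j)) A J hJ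
  refine ⟨R, fun M K hMK S hS => ?_⟩
  obtain ⟨j, hj, c, hc⟩ := hR M K hMK S hS
  exact ⟨j, hj, c, fun b hb hbc => unpredictable_of (hc b hb hbc)⟩

/-- the number of elements which are unpredictable in all bases but one -/
theorem each_card {κ : Type} [Fintype κ] (y : κ → ℝ) (F : Finset ℕ) (hF2 : ∀ b ∈ F, 2 ≤ b)
    (hF : ∀ b ∈ F, ∀ c ∈ F, b ≠ c → Independent b c) (u : ℕ → κ → ℕ → ℤ) {C : ℝ}
    (hu : ∀ b ∈ F, ∀ j, SimpleWord b C (u b j)) (A : ℝ) (k : ℝ) (w Q : ℕ)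
    (hk : ∀ q : ℕ, Q ≤ q → ∀ p : κ → ℤ, k ≤
      (Set.ncard {j : κ | 1 < |q * y j - p j| * (q : ℝ) ^ w} : ℝ)) :
    ∃ R : ℕ, ∀ M K : ℕ, R * (K + 1) ≤ M → k ≤
      (Set.ncard {j : κ | ∃ c : ℕ, ∀ b ∈ F, b ≠ c →
        Unpredictable b (u b j) (y j) M K (A * Real.log (M / (K + 1)))} : ℝ) := by
  classical
  obtain ⟨R, hR⟩ := each_set y F hF2 hF u hu A {S | ((Sᶜ : Set κ).ncard : ℝ) < k} (by
    intro S hS
    refine ⟨w, Q, fun q hq p => ?_⟩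
    by_contra hcon
    push Not at hcon
    have h1 : {j : κ | 1 < |q * y j - p j| * (q : ℝ) ^ w} ⊆ Sᶜ := by
      intro j hj hjS
      exact absurd hj (not_lt.2 (hcon j hjS))
    have h2 := Set.ncard_le_ncard h1 (Set.toFinite _)
    have h3 := hk q hq p
    have h4 : ((Set.ncard {j : κ | 1 < |q * y j - p j| * (q : ℝ) ^ w} : ℕ) : ℝ) ≤
      ((Sᶜ : Set κ).ncard : ℝ) := by exact_mod_cast h2
    exact absurd (h3.trans h4) (not_le.2 hS))
  refine ⟨R, fun M K hMK => ?_⟩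
  by_contra hcon
  push Not at hcon
  set T : Set κ := {j : κ | ∃ c : ℕ, ∀ b ∈ F, b ≠ c →
        Unpredictable b (u b j) (y j) M K (A * Real.log (M / (K + 1)))} with hT
  obtain ⟨j, hj, hc⟩ := hR M K hMK Tᶜ (by
    change ((Tᶜᶜ : Set κ).ncard : ℝ) < k
    rw [compl_compl]
    exact hcon)
  exact hj hc

/-- **Linear relations with coefficients from two fields.** -/
theorem linear_rel {κ κ' : Type} [Fintype κ] [Fintype κ'] (x : κ → ℝ) (x' : κ' → ℝ) (a : κ → ℕ)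
    (a' : κ' → ℕ) (ha : ∀ i, 2 ≤ a i) (ha' : ∀ j, 2 ≤ a' j)
    (hab : Subgroup.closure {u : ℚˣ | ∃ b ∈ Set.range a, ((u : ℚˣ) : ℚ) = b} ⊓
      Subgroup.closure {u : ℚˣ | ∃ b ∈ Set.range a', ((u : ℚˣ) : ℚ) = b} = ⊥)
    (C : ℝ) (u : κ → ℕ → ℤ) (u' : κ' → ℕ → ℤ) (hu : ∀ i, SimpleWord (a i) C (u i))
    (hu' : ∀ j, SimpleWord (a' j) C (u' j)) (A : ℝ) {s : ℕ} (z y : Fin s → ℝ)
    (hz : ∃ w Q : ℕ, ∀ a : Fin s → ℤ, a ≠ 0 → ∀ H : ℕ, Q ≤ H → (∀ j, |a j| ≤ H) →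
      1 < |∑ j, (a j : ℝ) * z j| * (H : ℝ) ^ w)
    (h1 : ∀ j, z j ∈ Subfield.closure (Set.range x))
    (h2 : ∀ j, y j ∈ Subfield.closure (Set.range x'))
    (hsum : ∑ j, z j * y j = 0) (hy : ∃ j, y j ≠ 0) :
    ∃ R : ℕ, ∀ M K : ℕ, R * (K + 1) ≤ M →
      (∃ i, Unpredictable (a i) (u i) (x i) M K (A * Real.log (M / (K + 1)))) ∨
      (∃ j, Unpredictable (a' j) (u' j) (x' j) M K (A * Real.log (M / (K + 1)))) := by
  obtain ⟨R, hR⟩ := linear (ι := κ ⊕ κ') (Sum.elim a a')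
    (by rintro (i | i); exacts [ha i, ha' i]) (Sum.elim u u') (C := C)
    (by rintro (i | i); exacts [simple_of (hu i), simple_of (hu' i)]) (Sum.elim x x') A z y hz
    (Set.range Sum.inl) (Set.range Sum.inr) (by
      rw [← Set.range_comp, ← Set.range_comp, Sum.elim_comp_inl, Sum.elim_comp_inr]
      exact hab) (fun j => by
      rw [← Set.range_comp, Sum.elim_comp_inl]
      exact h1 j) (fun j => by
      rw [← Set.range_comp, Sum.elim_comp_inr]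
      exact h2 j) hsum hy
  refine ⟨R, fun M K hMK => ?_⟩
  obtain ⟨i | j, h⟩ := hR M K hMK
  · exact Or.inl ⟨i, unpredictable_of h⟩
  · exact Or.inr ⟨j, unpredictable_of h⟩

end Pool.Agent.Run7.h103.PF
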