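import Mathlib
import Pool.Agent.Run7.h103.PF.Each

set_option autoImplicit false
set_option linter.unusedSectionVars false

/-!
# Measures for polynomials in `π`
-/

namespace Pool.Agent.Run7.h103.PF

open Polynomial

/-- polynomials in `e`, `π` and `log q` -/
lemma poly_meas {z : ℝ} (h : z = Real.exp 1 ∨ z = Real.pi ∨ ∃ q : ℚ, 0 < q ∧ q ≠ 1 ∧ z = Real.log q)
    (D : ℕ) : ∃ (w : ℕ) (c : ℝ), 0 < c ∧ ∀ P : ℤ[X], P ≠ 0 → P.natDegree ≤ D → ∀ H : ℝ, 1 ≤ H →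
      (∀ j, |(P.coeff j : ℝ)| ≤ H) → c ≤ H ^ w * |aeval z P| := by
  obtain ⟨κ, c, hκ, hc, hm⟩ := Pool.Agent.TH796.AL.Ai.measT_of h D
  obtain ⟨w, hw⟩ := exists_nat_ge κ
  refine ⟨w, c, hc, fun P hP hPD H hH hPH => ?_⟩
  have h1 := hm P hP hPD H hH hPH
  rw [← Pool.Agent.TH456.TM.abs_aeval] at h1
  refine h1.trans ?_
  have h2 : H ^ κ ≤ H ^ w := by
    rw [← Real.rpow_natCast]
    exact Real.rpow_le_rpow_of_exponent_le hH hw
  exact mul_le_mul_of_nonneg_right h2 (abs_nonneg _)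

/-- `a + b π ^ 2` -/
lemma pi_sq_lin : ∃ (w : ℕ) (c : ℝ), 0 < c ∧ ∀ a b : ℤ, (a ≠ 0 ∨ b ≠ 0) → ∀ H : ℝ, 1 ≤ H →
    |(a : ℝ)| ≤ H → |(b : ℝ)| ≤ H → c ≤ H ^ w * |(a : ℝ) + b * Real.pi ^ 2| := by
  obtain ⟨w, c, hc, h⟩ := poly_meas (z := Real.pi) (Or.inr (Or.inl rfl)) 2
  refine ⟨w, c, hc, fun a b hab H hH ha hb => ?_⟩
  have h1 := h (C a + C b * X ^ 2) (by
    intro h0
    have e0 := congrArg (fun P : ℤ[X] => P.coeff 0) h0
    have e2 := congrArg (fun P : ℤ[X] => P.coeff 2) h0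
    simp only [coeff_add, coeff_C, coeff_C_mul, coeff_X_pow, coeff_zero] at e0 e2
    norm_num at e0 e2
    rcases hab with hab | hab
    · exact hab e0
    · exact hab e2) (by compute_degree) H hH (by
    intro j
    simp only [coeff_add, coeff_C, coeff_C_mul, coeff_X_pow]
    rcases j with _ | _ | _ | j
    · simpa using ha
    · simp; linarith
    · simpa using hb
    · simp; linarith)
  have h2 : aeval Real.pi (C a + C b * X ^ 2 : ℤ[X]) = (a : ℝ) + b * Real.pi ^ 2 := by simp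
  rwa [h2] at h1

/-- rational approximations of `π ^ 2` -/
lemma pi_sq : ∃ w Q : ℕ, ∀ q : ℕ, Q ≤ q → ∀ p : ℤ,
    1 < |(q : ℝ) * Real.pi ^ 2 - p| * (q : ℝ) ^ w := by
  obtain ⟨w, c, hc, h⟩ := pi_sq_lin
  obtain ⟨Q, hQ⟩ := exists_nat_ge (12 ^ w / c + 1)
  refine ⟨w + 1, max Q 1, fun q hq p => ?_⟩
  have hq1 : 1 ≤ q := (le_max_right _ _).trans hq
  have hqr : (1 : ℝ) ≤ q := by exact_mod_cast hq1
  have hqQ : 12 ^ w / c + 1 ≤ (q : ℝ) := hQ.trans (by exact_mod_cast (le_max_left _ _).trans hq)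
  by_cases hp : |(p : ℝ)| ≤ 12 * q
  · have h1 := h (-p) q (Or.inr (by omega)) (12 * q) (by linarith)
      (by push_cast; rw [abs_neg]; exact hp)
      (by push_cast; rw [abs_of_nonneg (by linarith)]; linarith)
    have e1 : ((-p : ℤ) : ℝ) + ((q : ℤ) : ℝ) * Real.pi ^ 2 = (q : ℝ) * Real.pi ^ 2 - p := by
      push_cast; ring
    rw [e1, mul_pow] at h1
    have h12 : (0 : ℝ) < 12 ^ w := by positivity
    have h3 : 12 ^ w < c * q := by
      have : 12 ^ w / c < q := by linarith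
      rw [div_lt_iff₀ hc] at this
      linarith
    have h4 : c * q ≤ 12 ^ w * (|(q : ℝ) * Real.pi ^ 2 - p| * (q : ℝ) ^ (w + 1)) := by
      calc c * q ≤ 12 ^ w * (q : ℝ) ^ w * |(q : ℝ) * Real.pi ^ 2 - p| * q := by gcongr
        _ = _ := by ring
    have h5 : 12 ^ w * 1 < 12 ^ w * (|(q : ℝ) * Real.pi ^ 2 - p| * (q : ℝ) ^ (w + 1)) := by linarith
    exact lt_of_mul_lt_mul_left h5 h12.le
  · push Not at hp
    have hpi : Real.pi ^ 2 < 10 := by
      have := Real.pi_lt_d2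
      nlinarith [Real.pi_pos]
    have h1 : 1 < |(q : ℝ) * Real.pi ^ 2 - p| := by
      have h2 : |(p : ℝ)| ≤ |(q : ℝ) * Real.pi ^ 2 - p| + |(q : ℝ) * Real.pi ^ 2| := by
        have := abs_sub_abs_le_abs_sub (p : ℝ) ((q : ℝ) * Real.pi ^ 2)
        rw [abs_sub_comm] at this
        linarith
      have h3 : |(q : ℝ) * Real.pi ^ 2| ≤ 10 * q := by
        rw [abs_of_nonneg (by positivity)]
        nlinarith
      linarith
    have h2 : (1 : ℝ) ≤ (q : ℝ) ^ (w + 1) := one_le_pow₀ hqr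
    nlinarith [abs_nonneg ((q : ℝ) * Real.pi ^ 2 - p)]

end Pool.Agent.Run7.h103.PF
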