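import Mathlib
import Pool.Agent.Run7.h103.PF.Each

set_option autoImplicit false
set_option linter.unusedSectionVars false

/-!
# Finite families with a simultaneous measure
-/

namespace Pool.Agent.Run7.h103.PF

open Finset

/-- simultaneous measures in the form of the starting files -/
lemma notSim_of {f : ℕ → ℝ} {T : Finset ℕ} {w : ℕ}
    (hm : ∃ c : ℝ, 0 < c ∧ ∀ (a : ℕ → ℤ) (q : ℕ), 0 < q → ∃ j ∈ T,
      c / (q : ℝ) ^ w ≤ |f j - (a j : ℝ) / q|) : NotSim Set.univ (fun j : T => f j) := by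
  classical
  obtain ⟨c, hc, h⟩ := hm
  obtain ⟨Q, hQ⟩ := exists_nat_ge (1 / c + 1)
  refine ⟨w, max Q 1, fun q hq p => ?_⟩
  have hq1 : 1 ≤ q := (le_max_right _ _).trans hq
  have hqr : (1 : ℝ) ≤ q := by exact_mod_cast hq1
  have hq0 : (0 : ℝ) < q := by linarith
  have hqQ : 1 / c + 1 ≤ (q : ℝ) := hQ.trans (by exact_mod_cast (le_max_left _ _).trans hq)
  obtain ⟨j, hjT, hj⟩ := h (fun i => if hi : i ∈ T then p ⟨i, hi⟩ else 0) q hq1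
  simp only [dif_pos hjT] at hj
  refine ⟨⟨j, hjT⟩, trivial, ?_⟩
  change 1 < |(q : ℝ) * f j - (p ⟨j, hjT⟩ : ℝ)| * (q : ℝ) ^ w
  have e2 : |(q : ℝ) * f j - (p ⟨j, hjT⟩ : ℝ)| = q * |f j - (p ⟨j, hjT⟩ : ℝ) / q| := by
    rw [← abs_of_pos hq0, ← abs_mul, abs_of_pos hq0]
    congr 1
    field_simp
  rw [e2]
  have h1 : c ≤ |f j - (p ⟨j, hjT⟩ : ℝ) / q| * (q : ℝ) ^ w := by
    rwa [div_le_iff₀ (by positivity)] at hj
  have h2 : 1 < c * q := by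
    have : 1 / c < q := by linarith
    rw [div_lt_iff₀ hc] at this
    linarith
  calc (1 : ℝ) < c * q := h2
    _ ≤ |f j - (p ⟨j, hjT⟩ : ℝ) / q| * (q : ℝ) ^ w * q := by gcongr
    _ = _ := by ring

/-- **One of finitely many numbers with a simultaneous measure**, in all bases but one. -/
theorem nat_bases {f : ℕ → ℝ} {T : Finset ℕ} {w : ℕ}
    (hm : ∃ c : ℝ, 0 < c ∧ ∀ (a : ℕ → ℤ) (q : ℕ), 0 < q → ∃ j ∈ T,
      c / (q : ℝ) ^ w ≤ |f j - (a j : ℝ) / q|)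
    (F : Finset ℕ) (hF2 : ∀ b ∈ F, 2 ≤ b)
    (hF : ∀ b ∈ F, ∀ c ∈ F, b ≠ c → Independent b c) (C : ℝ) (u : ℕ → ℕ → ℕ → ℤ)
    (hu : ∀ b ∈ F, ∀ j, SimpleWord b C (u b j)) (A : ℝ) :
    ∃ R : ℕ, ∀ M K : ℕ, R * (K + 1) ≤ M → ∃ j ∈ T, ∃ c : ℕ, ∀ b ∈ F, b ≠ c →
      Unpredictable b (u b j) (f j) M K (A * Real.log (M / (K + 1))) := by
  obtain ⟨R, hR⟩ := each_set (κ := T) (fun j => f j) F hF2 hF
    (fun b j => u b j) (fun b hb j => hu b hb _) A {Set.univ} (by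
      rintro S rfl
      exact notSim_of hm)
  refine ⟨R, fun M K hMK => ?_⟩
  obtain ⟨j, -, c, hc⟩ := hR M K hMK _ rfl
  exact ⟨j, j.2, c, hc⟩

/-- the version for fields -/
theorem nat_fields {f : ℕ → ℝ} {T : Finset ℕ} {w : ℕ}
    (hm : ∃ c : ℝ, 0 < c ∧ ∀ (a : ℕ → ℤ) (q : ℕ), 0 < q → ∃ j ∈ T,
      c / (q : ℝ) ^ w ≤ |f j - (a j : ℝ) / q|)
    {κ κ' : Type} [Fintype κ] [Fintype κ'] (a : κ → ℕ) (b : κ' → ℕ) (ha : ∀ i, 2 ≤ a i)
    (hb : ∀ j, 2 ≤ b j)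
    (hab : Subgroup.closure {u : ℚˣ | ∃ b ∈ Set.range a, ((u : ℚˣ) : ℚ) = b} ⊓
      Subgroup.closure {u : ℚˣ | ∃ b' ∈ Set.range b, ((u : ℚˣ) : ℚ) = b'} = ⊥)
    (C : ℝ) (u : κ → ℕ → ℤ) (v : κ' → ℕ → ℤ) (hu : ∀ i, SimpleWord (a i) C (u i))
    (hv : ∀ j, SimpleWord (b j) C (v j)) (y : κ → ℝ) (z : κ' → ℝ)
    (hy : ∀ i ∈ T, f i ∈ Subfield.closure (Set.range y))
    (hz : ∀ i ∈ T, f i ∈ Subfield.closure (Set.range z)) (A : ℝ) :
    ∃ R : ℕ, ∀ M K : ℕ, R * (K + 1) ≤ M →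
      (∃ i, Unpredictable (a i) (u i) (y i) M K (A * Real.log (M / (K + 1)))) ∨
      (∃ j, Unpredictable (b j) (v j) (z j) M K (A * Real.log (M / (K + 1)))) := by
  obtain ⟨R, hR⟩ := several (ι := κ ⊕ κ') (Sum.elim a b)
    (by rintro (i | i); exacts [ha i, hb i]) (Sum.elim u v) (C := C)
    (by rintro (i | i); exacts [simple_of (hu i), simple_of (hv i)]) (Sum.elim y z) A
    (fun k : T => f k) (notSim_of hm)
    (fun _ => Set.range Sum.inl) (fun _ => Set.range Sum.inr) (fun _ => by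
      rw [← Set.range_comp, ← Set.range_comp, Sum.elim_comp_inl, Sum.elim_comp_inr]
      exact hab) (fun k => by
      rw [← Set.range_comp, Sum.elim_comp_inl]
      exact hy _ k.2) (fun k => by
      rw [← Set.range_comp, Sum.elim_comp_inr]
      exact hz _ k.2)
  refine ⟨R, fun M K hMK => ?_⟩
  obtain ⟨i | j, h⟩ := hR M K hMK
  · exact Or.inl ⟨i, unpredictable_of h⟩
  · exact Or.inr ⟨j, unpredictable_of h⟩

end Pool.Agent.Run7.h103.PF
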